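import Pool.Agent.Helper73.QX.Cross
import Pool.Agent.Helper73.QW.Semi

/-!
# Frobenius on the eigenspaces of the group
-/

open IntermediateField Module

namespace Pool.Agent.Helper73.QX

open Pool.Agent.Helper75.QC Pool.Agent.Helper73.QW

section

variable {p : ℕ} [hp : Fact p.Prime] {Ω L : Type} [Field Ω] [Algebra (ZMod p) Ω] [Field L]

/-- the first cohomology of the curve `u ^ p - u = s ^ m` as a representation of its group of
automorphisms `u ↦ u + c` -/
def WildCurve (p m : ℕ) {Ω L : Type} [Field Ω] [Field L] (T : Cohomology Ω L) : Prop :=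
  ∀ (C : Type) [Field C] [Algebra Ω C] (u s : C) (σ : C →ₐ[Ω] C), Transcendental Ω u →
    u ^ p - u = s ^ m → adjoin Ω {u, s} = ⊤ → σ u = u + 1 → σ s = s →
      ∀ ξ : L, ξ ^ p = 1 → ξ ≠ 1 → ∃ z : T.H 1 C, z ≠ 0 ∧ T.map 1 σ z = ξ • z

/-- the curve and its product with a variety -/
theorem exists_as_curve (p : ℕ) [hp : Fact p.Prime] {Ω : Type} [Field Ω] [Algebra (ZMod p) Ω]
    {m : ℕ} (hm : m.Prime) (K : Type) [Field K] [Algebra Ω K] :
    ∃ (C N : Type) (_ : Field C) (_ : Algebra Ω C) (_ : Field N) (_ : Algebra Ω N)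
      (u s : C) (a : K →ₐ[Ω] N) (b : C →ₐ[Ω] N),
      Transcendental Ω u ∧ u ^ p - u = s ^ m ∧ adjoin Ω {u, s} = ⊤ ∧
      Transcendental a.fieldRange (b u) ∧
      adjoin Ω (Set.range a ∪ {b u, b s}) = ⊤ ∧
      ∀ (E : Type) [Field E] [Algebra Ω E] (u' s' : E), Transcendental Ω u' →
        u' ^ p - u' = s' ^ m → ∃ τ : C →ₐ[Ω] E, τ u = u' ∧ τ s = s' := by
  have hch : CharP Ω p := charP_of_injective_algebraMap (algebraMap (ZMod p) Ω).injective p
  have hae : ∀ (E : Type) [Field E] [Algebra Ω E] (u : E),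
      Polynomial.aeval u (Polynomial.X ^ p - Polynomial.X : Polynomial Ω) = u ^ p - u := by
    intro E _ _ u
    rw [map_sub, map_pow, Polynomial.aeval_X]
  obtain ⟨C, N, iC, jC, iN, jN, u, s, a, b, h1, h2, h3, h4, h5, h6⟩ :=
    exists_curve (Polynomial.X ^ p - Polynomial.X : Polynomial Ω) hm (by
      rw [FiniteField.X_pow_card_sub_X_natDegree_eq Ω hp.out.one_lt]
      exact hp.out.pos) (fun F _ _ => by
      have := charP_of p Ω F
      have h7 : ((Polynomial.X ^ p - Polynomial.X : Polynomial Ω).map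
          (algebraMap Ω F)).Separable := by
        rw [Polynomial.map_sub, Polynomial.map_pow, Polynomial.map_X, Polynomial.separable_def]
        have h1 : Polynomial.derivative (Polynomial.X ^ p - Polynomial.X : Polynomial F) = -1 := by
          rw [Polynomial.derivative_sub, Polynomial.derivative_X_pow, Polynomial.derivative_X,
            CharP.cast_eq_zero, Polynomial.C_0, zero_mul, zero_sub]
        rw [h1]
        exact isCoprime_one_right.neg_right
      exact h7.squarefree) K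
  refine ⟨C, N, iC, jC, iN, jN, u, s, a, b, h1, ?_, h3, h4, h5, ?_⟩
  · rw [← hae, h2]
  · intro E _ _ u' s' hu' hs'
    exact h6 E u' s' hu' (by rw [hae, hs'])

theorem transcendental_add {E : Type} [Field E] [Algebra Ω E] {u : E} (hu : Transcendental Ω u)
    (c : ZMod p) : Transcendental Ω (u + em p Ω E c) := by
  intro h
  apply hu
  have h1 : u + em p Ω E c ∈ algebraicClosure Ω E := (mem_algebraicClosure_iff).2 h
  have h2 : em p Ω E c ∈ algebraicClosure Ω E := (algebraicClosure Ω E).algebraMap_mem _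
  have h3 := sub_mem h1 h2
  rw [add_sub_cancel_right] at h3
  exact (mem_algebraicClosure_iff).1 h3

/-- the action of all translations -/
theorem translations (T : Cohomology Ω L) {C : Type} [Field C] [Algebra Ω C] {u s : C}
    (hC : adjoin Ω {u, s} = ⊤) (σ : C →ₐ[Ω] C) (hu : σ u = u + 1) (hs : σ s = s)
    (ψ : AddChar (ZMod p) L) {z : T.H 1 C} (hz : T.map 1 σ z = (ψ 1)⁻¹ • z) (c : ZMod p)
    (τ : C →ₐ[Ω] C) (h1 : τ u = u + em p Ω C c) (h2 : τ s = s) :
    T.map 1 τ z = (ψ c)⁻¹ • z := by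
  have h3 : ∀ n : ℕ, (σ ^ n) u = u + (n : C) ∧ (σ ^ n) s = s := by
    intro n
    induction n with
    | zero => simp
    | succ n ih =>
      rw [pow_succ', AlgHom.mul_apply, AlgHom.mul_apply, ih.1, ih.2, map_add, map_natCast, hu, hs]
      refine ⟨?_, rfl⟩
      push_cast
      ring
  have h4 : ∀ n : ℕ, T.map 1 (σ ^ n) z = (ψ 1)⁻¹ ^ n • z := by
    intro n
    induction n with
    | zero =>
      rw [pow_zero, pow_zero, one_smul]
      exact LinearMap.congr_fun (T.map_id 1 C) z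
    | succ n ih =>
      have h5 : T.map 1 (σ ^ (n + 1)) z = T.map 1 σ (T.map 1 (σ ^ n) z) := by
        rw [pow_succ']
        exact LinearMap.congr_fun (T.map_comp 1 (σ ^ n) σ) z
      rw [h5, ih, map_smul, hz, smul_smul, pow_succ]
  have h5 : τ = σ ^ c.val := by
    refine Pool.Agent.Helper75.QC.hom_ext {u, s} hC _ _ ?_
    rintro e (rfl | he)
    · rw [h1, (h3 _).1]
      congr 1
      have h6 : em p Ω C c = em p Ω C ((c.val : ℕ) : ZMod p) := by
        rw [ZMod.natCast_val, ZMod.cast_id]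
      rw [h6, map_natCast]
    · rw [Set.mem_singleton_iff] at he
      rw [he, h2, (h3 _).2]
  rw [h5, h4]
  congr 1
  have h6 : ψ c = ψ 1 ^ c.val := by
    rw [← AddChar.map_nsmul_eq_pow]
    congr 1
    rw [nsmul_eq_mul, mul_one, ZMod.natCast_val, ZMod.cast_id]
  rw [h6, inv_pow]

theorem pow_eq_one_of (ψ : AddChar (ZMod p) L) : ψ 1 ^ p = 1 := by
  rw [← AddChar.map_nsmul_eq_pow, nsmul_eq_mul, ZMod.natCast_self, zero_mul,
    AddChar.map_zero_eq_one]

theorem sq_pow_ne {m : ℕ} (hm : 0 < m) {C : Type} [Field C] [Algebra Ω C] {u s : C}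
    (hu : Transcendental Ω u) (hs : u ^ p - u = s ^ m) (k : C) (hC : adjoin Ω {u, s} = ⊤) :
    k ∈ Acl Ω {u} := by
  rw [← mem_AF]
  have h1 : adjoin Ω {u, s} ≤ AF Ω {u} := by
    rw [adjoin_le_iff]
    have hvm : u ∈ AF Ω {u} := subset_AF _ (by simp)
    rintro v (rfl | hv)
    · exact hvm
    · rw [Set.mem_singleton_iff] at hv
      rw [hv]
      apply AF_root hm
      rw [← hs]
      exact sub_mem (pow_mem hvm p) hvm
  apply h1
  rw [hC]
  exact mem_top

variable {K : Type} [Field K] [Algebra Ω K] {r : ℕ} {x y : K} {w : Fin r → K}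

theorem Cov.commute_frob (hC : Cov p Ω x y w) (e : ℕ) (φ : K →ₐ[Ω] K) (hx : φ x = x ^ p ^ e)
    (hy : φ y = y ^ p ^ e) (hw : ∀ i, φ (w i) = w i ^ p ^ e) (τ : Gp Ω x y) :
    (toHom τ).comp φ = φ.comp (toHom τ) := by
  have := charP_of p Ω K
  refine hC.hom_ext _ _ ?_ ?_ fun i => ?_
  · rw [AlgHom.comp_apply, AlgHom.comp_apply, hx, map_pow, toHom_x, hx]
  · rw [AlgHom.comp_apply, AlgHom.comp_apply, hy, map_pow, toHom_y, hy]
  · rw [AlgHom.comp_apply, AlgHom.comp_apply, hw, map_pow, hC.sh_spec, map_add, map_em, hw,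
      add_pow_char_pow, em_pow']

theorem Cov.fg (hC : Cov p Ω x y w) : (⊤ : IntermediateField Ω K).FG := by
  rw [← hC.top]
  exact fg_adjoin_of_finite (Set.Finite.union (Set.toFinite _) (Set.finite_range w))

theorem Cov.isFrob (hC : Cov p Ω x y w) {e : ℕ} {φ : K →ₐ[Ω] K} (hx : φ x = x ^ p ^ e)
    (hy : φ y = y ^ p ^ e) (hw : ∀ i, φ (w i) = w i ^ p ^ e) : IsFrob (p ^ e) φ := by
  unfold IsFrob
  rw [eq_top_iff, ← hC.top, adjoin_le_iff]
  rintro v ((rfl | hv) | ⟨i, rfl⟩)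
  · exact subset_adjoin _ _ hx
  · rw [Set.mem_singleton_iff] at hv
    rw [hv]
    exact subset_adjoin _ _ hy
  · exact subset_adjoin _ _ (hw i)

theorem Cov.good [CharZero L] [IsAlgClosed L] (T : Theory p Ω L)
    (hC : Cov p Ω x y w) (k : Fin r → ZMod p) {m : ℕ} (hm : m.Prime)
    (hG : Geo Ω p m x y (comb p Ω k fun i => w i ^ p - w i))
    (hcurve : WildCurve p m T.toCohomology) (ψ : AddChar (ZMod p) L) (hψ : ψ 1 ≠ 1) (e : ℕ)
    (φ : K →ₐ[Ω] K) (hx : φ x = x ^ p ^ e) (hy : φ y = y ^ p ^ e)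
    (hw : ∀ i, φ (w i) = w i ^ p ^ e) (t : T.H 2 K)
    (ht : ∀ τ : Gp Ω x y, T.map 2 (toHom τ) t = ψ (∑ i, k i * hC.sh τ i) • t) :
    t ∈ ⨆ c, End.eigenspace (T.map 2 φ) c := by
  classical
  have hp0 : p ≠ 0 := hp.out.ne_zero
  obtain ⟨Q, hQ⟩ : ∃ Q, Q = p ^ e := ⟨_, rfl⟩
  have hQ0 : 0 < Q := by
    rw [hQ]
    exact pow_pos (Nat.pos_of_ne_zero hp0) _
  have hfin := hC.fg
  have : FiniteDimensional L (T.H 2 K) := T.fin 2 K hfin
  obtain ⟨C, N, iC, jC, iN, jN, u, s, a, b, hu, hs, hCt, hb, hN, huniv⟩ :=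
    exists_as_curve p (Ω := Ω) hm K
  have hchC := charP_of p Ω C
  have hsig : ∀ c : ZMod p, ∃ τ : C →ₐ[Ω] C, τ u = u + em p Ω C c ∧ τ s = s := by
    intro c
    refine huniv C _ _ (transcendental_add hu c) ?_
    rw [sub_add_em, hs]
  obtain ⟨ψF, hF1, hF2⟩ := huniv C (u ^ Q) (s ^ Q) (by
    intro h
    exact hu (IsAlgebraic.of_pow hQ0 h)) (by
    have h1 : (u ^ Q) ^ p - u ^ Q = (u ^ p - u) ^ Q := by
      rw [hQ, sub_pow_char_pow, ← pow_mul, ← pow_mul, mul_comm p]
    rw [h1, hs, ← pow_mul, ← pow_mul, mul_comm m])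
  have hfinC : (⊤ : IntermediateField Ω C).FG := by
    rw [← hCt]
    exact fg_adjoin_of_finite (Set.toFinite _)
  have : FiniteDimensional L (T.H 1 C) := T.fin 1 C hfinC
  obtain ⟨σ, hσ1, hσ2⟩ := hsig 1
  rw [map_one] at hσ1
  obtain ⟨c0, hc0, hc0'⟩ := hcurve C u s σ hu hs hCt hσ1 hσ2 (ψ 1)⁻¹
    (by rw [inv_pow, pow_eq_one_of, inv_one]) (by
      intro h
      exact hψ (inv_eq_one.1 h))
  have hcomm : Commute (T.map 1 σ : End L (T.H 1 C)) (T.map 1 ψF) := by
    have h3 : σ.comp ψF = ψF.comp σ := by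
      refine Pool.Agent.Helper75.QC.hom_ext {u, s} hCt _ _ ?_
      rintro c (rfl | hc)
      · rw [AlgHom.comp_apply, AlgHom.comp_apply, hF1, map_pow, hσ1, map_add, hF1, map_one, hQ,
          add_pow_char_pow, one_pow]
      · rw [Set.mem_singleton_iff] at hc
        rw [hc, AlgHom.comp_apply, AlgHom.comp_apply, hF2, map_pow, hσ2, hF2]
    show (T.map 1 σ : End L (T.H 1 C)) * T.map 1 ψF = T.map 1 ψF * T.map 1 σ
    have h1 := T.map_comp 1 ψF σ
    have h4 := T.map_comp 1 σ ψF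
    rw [h3, h4] at h1
    exact h1.symm
  obtain ⟨c, l, hc0'', hcσ, hcF⟩ := exists_common
    (fun _ : Unit => (T.map 1 σ : End L (T.H 1 C))) (fun _ => (ψ 1)⁻¹)
    (T.map 1 ψF) (fun _ => hcomm) hc0 (fun _ => hc0')
  have hc : ∀ (e : ZMod p) (τ : C →ₐ[Ω] C), τ u = u + em p Ω C e → τ s = s →
      T.map 1 τ c = (ψ e)⁻¹ • c := fun e τ h3 h4 =>
    translations T.toCohomology hCt σ hσ1 hσ2 ψ (hcσ ()) e τ h3 h4
  have hinjC : Function.Injective (T.map 1 ψF) := by
    refine T.inj 1 ψF fun a => alg_of_pow ψF.fieldRange {u, s} hCt Q hQ0 ?_ a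
    rintro v (rfl | hv)
    · exact ⟨v, hF1⟩
    · rw [Set.mem_singleton_iff] at hv
      rw [hv]
      exact ⟨s, hF2⟩
  have hl : l ≠ 0 := by
    rintro rfl
    rw [zero_smul] at hcF
    exact hc0'' (hinjC (by rw [hcF, map_zero]))
  obtain ⟨U, hU⟩ : ∃ U : Submodule L (T.H 2 K), ∀ t, t ∈ U ↔ ∀ τ : Gp Ω x y,
      T.map 2 (toHom τ) t = ψ (∑ i, k i * hC.sh τ i) • t := by
    refine ⟨⨅ τ : Gp Ω x y, End.eigenspace (T.map 2 (toHom τ))
      (ψ (∑ i, k i * hC.sh τ i)), fun t => ?_⟩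
    rw [Submodule.mem_iInf]
    exact forall_congr' fun i => End.mem_eigenspace_iff
  have hUst : ∀ t ∈ U, (T.map 2 φ : End L (T.H 2 K)) t ∈ U := by
    intro t ht
    rw [hU] at ht ⊢
    intro τ
    have h1 := LinearMap.congr_fun (T.map_comp 2 φ (toHom τ)) t
    have h3 := LinearMap.congr_fun (T.map_comp 2 (toHom τ) φ) t
    rw [hC.commute_frob e φ hx hy hw τ, h3, LinearMap.comp_apply, LinearMap.comp_apply, ht τ,
      map_smul] at h1
    exact h1.symm
  have hPP : ∀ t ∈ U.map ((TensorProduct.mk L (T.H 2 K) (T.H 1 C)).flip c),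
      TensorProduct.map (T.map 2 φ) (T.map 1 ψF) t ∈
        U.map ((TensorProduct.mk L (T.H 2 K) (T.H 1 C)).flip c) := by
    rintro _ ⟨s, hs, rfl⟩
    refine ⟨l • T.map 2 φ s, Submodule.smul_mem _ _ (hUst s hs), ?_⟩
    simp only [LinearMap.flip_apply, TensorProduct.mk_apply, TensorProduct.map_tmul]
    rw [hcF, TensorProduct.tmul_smul, TensorProduct.smul_tmul']
  have hss : End.IsSemisimple ((T.map 2 φ : End L (T.H 2 K)).restrict hUst) := by
    refine semisimple_of_tensor (T.map 2 φ) (T.map 1 ψF) c hc0'' l hl hcF U hUst hPP ?_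
    refine T.coniveau hp0 a b x y u e φ ψF hfin hfinC ?_ ?_ hb ?_ ?_ _ ?_ hPP
    · intro k
      have : FiniteDimensional (adjoin Ω {x, y}) K := hC.galois.1
      exact Algebra.IsAlgebraic.isAlgebraic k
    · intro k
      exact sq_pow_ne hm.pos hu hs k hCt
    · exact hC.isFrob hx hy hw
    · unfold IsFrob
      rw [eq_top_iff, ← hCt, adjoin_le_iff]
      rintro v (rfl | hv)
      · rw [hQ] at hF1
        exact subset_adjoin _ _ hF1
      · rw [Set.mem_singleton_iff] at hv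
        rw [hQ] at hF2
        rw [hv]
        exact subset_adjoin _ _ hF2
    · rintro _ ⟨v, hv, rfl⟩
      simp only [LinearMap.flip_apply, TensorProduct.mk_apply, TensorProduct.lift.tmul,
        LinearMap.compl₁₂_apply]
      exact hC.cross_zero T.toBaseTheory k hG ψ u s hs hCt a b hb hN hsig c hc v ((hU v).1 hv)
  exact Pool.Agent.Helper73.KT.le_of_semisimple hUst hss ((hU t).2 ht)

theorem Cov.semisimple [CharZero L] [IsAlgClosed L] (T : Theory p Ω L)
    (hC : Cov p Ω x y w) {m : ℕ} (hm : m.Prime)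
    (hG : ∀ k : Fin r → ZMod p, Geo Ω p m x y (comb p Ω k fun i => w i ^ p - w i))
    (hcurve : WildCurve p m T.toCohomology) (e : ℕ) (φ : K →ₐ[Ω] K) (hx : φ x = x ^ p ^ e)
    (hy : φ y = y ^ p ^ e) (hw : ∀ i, φ (w i) = w i ^ p ^ e) :
    End.IsSemisimple (T.map 2 φ) := by
  classical
  have : FiniteDimensional L (T.H 2 K) := T.fin 2 K hC.fg
  have := hC.galois.1
  have : Finite (Gp Ω x y) := inferInstance
  let ρ : Gp Ω x y →* End L (T.H 2 K) :=
    { toFun := fun τ => T.map 2 (toHom τ)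
      map_one' := by
        rw [toHom_one]
        exact T.map_id 2 K
      map_mul' := fun σ τ => by
        rw [toHom_mul]
        exact T.map_comp 2 (toHom τ) (toHom σ) }
  apply Pool.Agent.Helper73.KT.semisimple_of_iSup
  refine semisimple_of_group ρ (fun σ τ => ?_) _ ?_
  · show ρ σ * ρ τ = ρ τ * ρ σ
    rw [← map_mul, ← map_mul, hC.comm]
  · intro χ t ht
    obtain ⟨ψ, -, hψ, hchar⟩ := exists_addChar (p := p) (L := L)
    obtain ⟨χ', hχ'⟩ := exists_extension hC.iota hC.iota_injective χ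
    obtain ⟨k, hk⟩ := hchar χ'
    refine hC.good T k hm (hG k) hcurve ψ hψ e φ hx hy hw t fun τ => ?_
    have h1 := ht τ
    rw [← hχ' τ] at h1
    rw [← hk (hC.sh τ)]
    exact h1

end

end Pool.Agent.Helper73.QX
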