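import Pool.Agent.Helper73.QX.Good
import Pool.Agent.Helper73.QW.Galois

/-!
# Tate classes on the coverings `w_i ^ p - w_i = f_i (x, y)` of the plane
-/

open IntermediateField Module

namespace Pool.Agent.Helper73.QX

open Pool.Agent.Helper75.QC Pool.Agent.Helper73.QW Pool.Agent.Helper35.TD

section

variable {p : ℕ} [hp : Fact p.Prime] {F Ω L : Type} [Field F] [Field Ω] [Algebra F Ω]
    [Algebra.IsAlgebraic F Ω] [Algebra (ZMod p) Ω] [Field L] {K : Type} [Field K] [Algebra Ω K]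
    {r : ℕ} {x y : K} {w : Fin r → K}

theorem ring_em {K' : Type} [Field K'] [Algebra Ω K'] (γ : K' →+* K') (c : ZMod p) :
    γ (em p Ω K' c) = em p Ω K' c := by
  have h : γ.comp (em p Ω K') = em p Ω K' := Subsingleton.elim _ _
  exact DFunLike.congr_fun h c

omit hp [Algebra (ZMod p) Ω] in
/-- semilinear maps of the curve `u ^ p - u = s ^ m` -/
theorem exists_semilinear {m : ℕ} {C : Type} [Field C] [i : Algebra Ω C] (u s : C)
    (hu : Transcendental Ω u) (hs : u ^ p - u = s ^ m)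
    (huniv : ∀ (E : Type) [Field E] [Algebra Ω E] (u' s' : E), Transcendental Ω u' →
      u' ^ p - u' = s' ^ m → ∃ τ : C →ₐ[Ω] E, τ u = u' ∧ τ s = s')
    (τ : Ω ≃+* Ω) : ∃ γ : C →+* C, IsOver τ γ ∧ γ u = u ∧ γ s = s := by
  let j : Algebra Ω C := ((algebraMap Ω C).comp (τ : Ω →+* Ω)).toAlgebra
  have hae : ∀ P : Polynomial Ω, @Polynomial.aeval Ω C _ _ j u P =
      @Polynomial.aeval Ω C _ _ i u (P.map (τ : Ω →+* Ω)) := by
    intro P
    rw [@Polynomial.aeval_def Ω C _ _ j, @Polynomial.aeval_def Ω C _ _ i, Polynomial.eval₂_map]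
    rfl
  have hu' : @Transcendental Ω C _ _ j u := by
    rintro ⟨P, hP0, hP⟩
    rw [hae] at hP
    exact hu ⟨P.map (τ : Ω →+* Ω), (Polynomial.map_ne_zero_iff τ.injective).2 hP0, hP⟩
  obtain ⟨γ, h1, h2⟩ := @huniv C _ j u s hu' hs
  exact ⟨@AlgHom.toRingHom Ω C C _ _ _ i j γ, fun a => @AlgHom.commutes Ω C C _ _ _ i j γ a, h1,
    h2⟩

theorem Cov.noTate [CharZero L] [IsAlgClosed L] (T : GaloisTheory F Ω L)
    (hC : Cov p Ω x y w) {m : ℕ} (hm : m.Prime)
    (hG : ∀ k : Fin r → ZMod p, Geo Ω p m x y (comb p Ω k fun i => w i ^ p - w i))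
    (hcurve : WildCurve p m T.toCohomology) : NoTate T K := by
  classical
  intro U hU γ hγ t ht
  have hfin : (⊤ : IntermediateField Ω K).FG := hC.fg
  have : FiniteDimensional L (T.H 2 K) := T.fin 2 K hfin
  obtain ⟨W, hWU, hWo, hfix⟩ := fixed_open_set {a : K | ∀ τ ∈ U, γ τ a = a} U hU γ hγ.1
    (fun τ hτ s hs => hs τ hτ) ({x, y} ∪ Finset.univ.image w) (fun k _ => by
      rw [hγ.2]; exact mem_top)
  have hfx : ∀ τ ∈ W, γ τ x = x := fun τ hτ => hfix τ hτ x (by simp)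
  have hfy : ∀ τ ∈ W, γ τ y = y := fun τ hτ => hfix τ hτ y (by simp)
  have hfw : ∀ τ ∈ W, ∀ i, γ τ (w i) = w i := fun τ hτ i => hfix τ hτ (w i) (by simp)
  have hover : ∀ τ ∈ W, IsOver (τ : Ω ≃+* Ω) (γ τ) := fun τ hτ => hγ.1 τ (hWU hτ)
  -- the action commutes with the group
  have hcomm : ∀ τ ∈ W, ∀ (σ : Gp Ω x y) (r : T.H 2 K),
      T.act 2 (γ τ) (T.map 2 (toHom σ) r) = T.map 2 (toHom σ) (T.act 2 (γ τ) r) := by
    intro τ hτ σ r
    refine T.act_comm 2 ({x, y} ∪ Set.range w) hC.top (τ : Ω ≃+* Ω) (γ τ) (hover τ hτ)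
      (toHom σ) ?_ r
    rintro c ((rfl | hc) | ⟨i, rfl⟩)
    · rw [toHom_x, hfx τ hτ, toHom_x]
    · rw [Set.mem_singleton_iff] at hc
      rw [hc, toHom_y, hfy τ hτ, toHom_y]
    · rw [hfw τ hτ, hC.sh_spec, map_add, hfw τ hτ, ring_em]
  obtain ⟨P, hP⟩ : ∃ P : Submodule L (T.H 2 K), ∀ t, t ∈ P ↔ ∀ τ ∈ W,
      T.act 2 (γ τ) t = ((T.cyc τ)⁻¹ : Lˣ) • t :=
    ⟨{ carrier := {t | ∀ τ ∈ W, T.act 2 (γ τ) t = ((T.cyc τ)⁻¹ : Lˣ) • t}
       add_mem' := fun {a b} ha hb τ hτ => by rw [map_add, ha τ hτ, hb τ hτ, smul_add]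
       zero_mem' := fun τ _ => by rw [map_zero, smul_zero]
       smul_mem' := fun c a ha τ hτ => by rw [map_smul, ha τ hτ, smul_comm] },
      fun t => Iff.rfl⟩
  have hPst : ∀ (σ : Gp Ω x y), ∀ r ∈ P, T.map 2 (toHom σ) r ∈ P := by
    intro σ r hr
    rw [hP] at hr ⊢
    intro τ hτ
    rw [hcomm τ hτ, hr τ hτ, Units.smul_def, Units.smul_def, map_smul]
  let ρ : Gp Ω x y →* End L P :=
    { toFun := fun σ => (T.map 2 (toHom σ)).restrict (hPst σ)
      map_one' := by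
        ext r
        show T.map 2 (toHom (1 : Gp Ω x y)) (r : T.H 2 K) = r
        rw [toHom_one, T.map_id]
        rfl
      map_mul' := fun σ τ => by
        ext r
        show T.map 2 (toHom (σ * τ)) (r : T.H 2 K) = T.map 2 (toHom σ) (T.map 2 (toHom τ) r)
        rw [toHom_mul, T.map_comp]
        rfl }
  have := hC.galois.1
  have : Finite (Gp Ω x y) := inferInstance
  have key : (⊥ : Submodule L P) = ⊤ := by
    refine top_of_group ρ (fun σ τ => ?_) ⊥ ?_
    · show ρ σ * ρ τ = ρ τ * ρ σ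
      rw [← map_mul, ← map_mul, hC.comm]
    · intro χ r hr
      rw [Submodule.mem_bot]
      apply Subtype.ext
      obtain ⟨ψ, -, hψ, hchar⟩ := exists_addChar (p := p) (L := L)
      obtain ⟨χ', hχ'⟩ := exists_extension hC.iota hC.iota_injective χ
      obtain ⟨k, hk⟩ := hchar χ'
      have ht' : ∀ τ : Gp Ω x y, T.map 2 (toHom τ) (r : T.H 2 K) =
          ψ (∑ i, k i * hC.sh τ i) • (r : T.H 2 K) := by
        intro τ
        have h1 := congrArg Subtype.val (hr τ)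
        rw [← hχ' τ] at h1
        rw [← hk (hC.sh τ)]
        exact h1
      obtain ⟨C, N, iC, jC, iN, jN, u, s, a, b, hu, hs, hCt, hb, hN, huniv⟩ :=
        exists_as_curve p (Ω := Ω) hm K
      have hsig : ∀ c : ZMod p, ∃ τ : C →ₐ[Ω] C, τ u = u + em p Ω C c ∧ τ s = s := by
        intro c
        refine huniv C _ _ (transcendental_add hu c) ?_
        rw [sub_add_em, hs]
      have hfinC : (⊤ : IntermediateField Ω C).FG := by
        rw [← hCt]
        exact fg_adjoin_of_finite (Set.toFinite _)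
      obtain ⟨σ, hσ1, hσ2⟩ := hsig 1
      rw [map_one] at hσ1
      obtain ⟨c, hc0, hc⟩ := hcurve C u s σ hu hs hCt hσ1 hσ2 (ψ 1)⁻¹
        (by rw [inv_pow, pow_eq_one_of, inv_one]) (by
          intro h
          exact hψ (inv_eq_one.1 h))
      have hcup := hC.cross_zero T.toBaseTheory k (hG k) ψ u s hs hCt a b hb hN hsig c
        (fun e τ h3 h4 => translations T.toCohomology hCt σ hσ1 hσ2 ψ hc e τ h3 h4)
        (r : T.H 2 K) ht'
      have hex : ∀ τ : Ω ≃ₐ[F] Ω, ∃ γ' : C →+* C, τ ∈ W →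
          IsOver (τ : Ω ≃+* Ω) γ' ∧ γ' u = u ∧ γ' s = s := by
        intro τ
        obtain ⟨γ', h1⟩ := exists_semilinear u s hu hs huniv (τ : Ω ≃+* Ω)
        exact ⟨γ', fun _ => h1⟩
      choose γ' hγ' using hex
      refine T.eq_zero_of_cup a b x y u W γ γ' hfin hfinC ?_ ?_ hb hWo ?_ ?_ (r : T.H 2 K)
        ((hP _).1 r.2) c hc0 hcup
      · intro k
        exact Algebra.IsAlgebraic.isAlgebraic k
      · intro k
        exact sq_pow_ne hm.pos hu hs k hCt
      · refine isForm_of_gens hover ({x, y} ∪ Set.range w) hC.top ?_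
        rintro τ hτ k ((rfl | hk) | ⟨i, rfl⟩)
        · exact hfx τ hτ
        · rw [Set.mem_singleton_iff] at hk
          rw [hk]
          exact hfy τ hτ
        · exact hfw τ hτ i
      · refine isForm_of_gens (fun τ hτ => (hγ' τ hτ).1) {u, s} hCt ?_
        intro τ hτ k hk
        rcases hk with rfl | hk
        · exact (hγ' τ hτ).2.1
        · rw [Set.mem_singleton_iff] at hk
          rw [hk]
          exact (hγ' τ hτ).2.2
  have hmem : t ∈ P := (hP t).2 fun τ hτ => ht τ (hWU hτ)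
  have h3 : (⟨t, hmem⟩ : P) ∈ (⊥ : Submodule L P) := by
    rw [key]
    exact Submodule.mem_top
  exact congrArg Subtype.val ((Submodule.mem_bot L).1 h3)

end

end Pool.Agent.Helper73.QX
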