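import Mathlib

/-!
# The weighted degree of a square
-/

set_option autoImplicit false

namespace Pool.Agent.Helper73.QX

section

variable {R : Type} [CommRing R] [IsDomain R]

/-- `P (T ^ a x, T ^ b y)` -/
noncomputable def scale (a b : ℕ) : MvPolynomial (Fin 2) R →ₐ[R]
    Polynomial (MvPolynomial (Fin 2) R) :=
  MvPolynomial.aeval fun i => Polynomial.C (MvPolynomial.X i) * Polynomial.X ^ (![a, b] i)

omit [IsDomain R] in
theorem scale_monomial (a b : ℕ) (m : Fin 2 →₀ ℕ) (c : R) :
    scale a b (MvPolynomial.monomial m c) =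
      Polynomial.C (MvPolynomial.monomial m c) * Polynomial.X ^ (a * m 0 + b * m 1) := by
  unfold scale
  rw [MvPolynomial.aeval_monomial, Finsupp.prod_fintype _ _ (fun i => pow_zero _),
    Fin.prod_univ_two, MvPolynomial.monomial_eq, Finsupp.prod_fintype _ _ (fun i => pow_zero _),
    Fin.prod_univ_two]
  simp only [Matrix.cons_val_zero, Matrix.cons_val_one, mul_pow, ← pow_mul, map_mul, map_pow,
    pow_add]
  rw [IsScalarTower.algebraMap_apply R (MvPolynomial (Fin 2) R)
    (Polynomial (MvPolynomial (Fin 2) R))]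
  simp only [MvPolynomial.algebraMap_eq, Polynomial.algebraMap_apply, Algebra.algebraMap_self,
    RingHom.id_apply]
  ring

omit [IsDomain R] in
theorem coeff_scale (a b : ℕ) (P : MvPolynomial (Fin 2) R) (k : ℕ) (m : Fin 2 →₀ ℕ) :
    MvPolynomial.coeff m ((scale a b P).coeff k) =
      if a * m 0 + b * m 1 = k then MvPolynomial.coeff m P else 0 := by
  classical
  induction P using MvPolynomial.induction_on' with
  | monomial u c =>
    rw [scale_monomial, Polynomial.coeff_C_mul, Polynomial.coeff_X_pow]
    by_cases h : u = m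
    · subst h
      by_cases h2 : a * u 0 + b * u 1 = k
      · rw [if_pos h2.symm, mul_one, if_pos h2]
      · rw [if_neg (fun h => h2 h.symm), mul_zero, if_neg h2, MvPolynomial.coeff_zero]
    · rw [MvPolynomial.coeff_monomial, if_neg h, ite_self]
      split_ifs
      · rw [mul_one, MvPolynomial.coeff_monomial, if_neg h]
      · rw [mul_zero, MvPolynomial.coeff_zero]
  | add P Q hP hQ =>
    rw [map_add, Polynomial.coeff_add, MvPolynomial.coeff_add, hP, hQ, MvPolynomial.coeff_add]
    split_ifs
    · rfl
    · rw [add_zero]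

/-- the degree of a square -/
theorem le_of_sq {a b : ℕ} {P : MvPolynomial (Fin 2) R} {E : ℕ}
    (h : ∀ m ∈ (P ^ 2).support, a * m 0 + b * m 1 ≤ E) (m : Fin 2 →₀ ℕ) (hm : m ∈ P.support) :
    2 * (a * m 0 + b * m 1) ≤ E := by
  classical
  have h1 : a * m 0 + b * m 1 ≤ (scale a b P).natDegree := by
    apply Polynomial.le_natDegree_of_ne_zero
    intro h0
    have h2 := coeff_scale a b P (a * m 0 + b * m 1) m
    rw [h0, if_pos rfl, MvPolynomial.coeff_zero] at h2
    exact (MvPolynomial.mem_support_iff.1 hm) h2.symm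
  have h3 : (scale a b (P ^ 2)).natDegree ≤ E := by
    rw [Polynomial.natDegree_le_iff_coeff_eq_zero]
    intro k hk
    ext u
    rw [coeff_scale, MvPolynomial.coeff_zero]
    split_ifs with hu
    · by_contra h4
      have h5 := h u (MvPolynomial.mem_support_iff.2 h4)
      omega
    · rfl
  rw [map_pow, Polynomial.natDegree_pow] at h3
  omega

end

end Pool.Agent.Helper73.QX
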