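import Pool.Agent.Helper73.QX.GeoDeg
import Pool.Agent.Helper73.QX.Wdeg

/-!
# The threefolds `d ^ p - d = s ^ 2 - f / g ^ 2` and `d ^ 2 - d = s ^ 3 - f / g ^ 2` are uniruled

Here `g ^ 2 = e h ^ P`, `P = max p 3`; the coordinates are `g s`, `h d` if `p` is odd and `g d`,
`h s` if `p = 2`. The weights of `x`, `y` are `a`, `b`; the condition is
`deg e + (P - 2) deg h ≤ 2 (a + b)`, `(P - 2) deg f + 2 deg e ≤ 2 P (a + b)`.
-/

set_option autoImplicit false

open IntermediateField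

namespace Pool.Agent.Helper73.QX

open Pool.Agent.Helper75.QC Pool.Agent.Helper73.QW Pool.Agent.Helper40.SD

section

variable {Ω : Type} [Field Ω] [IsAlgClosed Ω]

omit [IsAlgClosed Ω] in
theorem mem_of_val {N : Type} [Field N] [Algebra Ω N]
    (f : MvPolynomial (Fin 2) Ω) (x y : N) (F : IntermediateField Ω N)
    (hx : x ∈ F) (hy : y ∈ F) : MvPolynomial.aeval ![x, y] f ∈ F := by
  have h := map_aeval75 F.val (⟨x, hx⟩ : F) ⟨y, hy⟩ f
  change ((MvPolynomial.aeval ![(⟨x, hx⟩ : F), ⟨y, hy⟩] f : F) : N) = _ at h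
  rw [show MvPolynomial.aeval ![x, y] f = ((MvPolynomial.aeval ![(⟨x, hx⟩ : F), ⟨y, hy⟩] f : F) : N)
    from h.symm]
  exact Subtype.property _

omit [IsAlgClosed Ω] in
theorem mem_of_mul {N : Type} [Field N] [Algebra Ω N] (F : IntermediateField Ω N)
    {c z : N} (hc : c ∈ F) (hc0 : c ≠ 0) (h : c * z ∈ F) : z ∈ F := by
  have h5 : c * z / c = z := by
    field_simp
  rw [← h5]
  exact div_mem h hc

/-- the degree of a polynomial in `x, y` in three variables -/
theorem WD_rename {a b c : ℕ} {g : MvPolynomial (Fin 2) Ω} {D : ℕ}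
    (hg : ∀ m ∈ g.support, a * m 0 + b * m 1 ≤ D) :
    WD (fun o : Option (Fin 2) => o.elim c ![a, b]) D (MvPolynomial.rename some g) := by
  refine WD.rename (fun m hm => ?_)
  rw [Fin.sum_univ_two]
  have h4 := hg m hm
  change m 0 * a + m 1 * b ≤ _
  rw [mul_comm (m 0), mul_comm (m 1)]
  exact h4

/-- `d ^ p - d = s ^ 2 - F / g ^ 2`, `g ^ 2 = e h ^ p` -/
theorem uni_odd_pole (h2 : (2 : Ω) ≠ 0) (p a b c : ℕ) (F g e h : MvPolynomial (Fin 2) Ω)
    (D De Dh : ℕ) (hp : 0 < p) (hF : ∀ m ∈ F.support, a * m 0 + b * m 1 ≤ D)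
    (he : ∀ m ∈ e.support, a * m 0 + b * m 1 ≤ De)
    (hh : ∀ m ∈ h.support, a * m 0 + b * m 1 ≤ Dh) (hgeh : g ^ 2 = e * h ^ p)
    (hW : 0 < a + b + c) (h1 : D ≤ 2 * (a + b + c)) (h3 : De + p * c ≤ 2 * (a + b + c))
    (h4 : De + (p - 1) * Dh + c ≤ 2 * (a + b + c))
    {N : Type} [Field N] [Algebra Ω N] (x y d s : N)
    (hg0 : MvPolynomial.aeval ![x, y] g ≠ 0)
    (hs : (d ^ p - d) * MvPolynomial.aeval ![x, y] g ^ 2 =
      s ^ 2 * MvPolynomial.aeval ![x, y] g ^ 2 - MvPolynomial.aeval ![x, y] F) :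
    Uniruled Ω (adjoin Ω {x, y, d, s} : IntermediateField Ω N) 3 := by
  have hv : MvPolynomial.aeval ![x, y] g ^ 2 =
      MvPolynomial.aeval ![x, y] e * MvPolynomial.aeval ![x, y] h ^ p := by
    rw [← map_pow, hgeh, map_mul, map_pow]
  have hh0 : MvPolynomial.aeval ![x, y] h ≠ 0 := by
    intro h0
    rw [h0, zero_pow hp.ne', mul_zero] at hv
    exact pow_ne_zero 2 hg0 hv
  obtain ⟨q, rfl⟩ : ∃ q, p = q + 1 := ⟨p - 1, by omega⟩
  rw [Nat.add_sub_cancel] at h4
  set X : Option (Fin 2) → N := fun o => o.elim (MvPolynomial.aeval ![x, y] h * d) ![x, y] with hX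
  have hev : ∀ g : MvPolynomial (Fin 2) Ω,
      MvPolynomial.aeval X (MvPolynomial.rename some g) = MvPolynomial.aeval ![x, y] g := by
    intro g
    rw [MvPolynomial.aeval_rename]
    rfl
  have hXn : MvPolynomial.aeval X (MvPolynomial.X none : MvPolynomial (Option (Fin 2)) Ω) =
      MvPolynomial.aeval ![x, y] h * d := by
    rw [MvPolynomial.aeval_X]
    rfl
  set w : Option (Fin 2) → ℕ := fun o => o.elim c ![a, b] with hw
  have hsum : ∑ i, w i = a + b + c := by
    rw [Fintype.sum_option, Fin.sum_univ_two]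
    change c + (a + b) = _
    ring
  have hwX : WD w c (MvPolynomial.X none : MvPolynomial (Option (Fin 2)) Ω) := WD.X none
  refine uni_in_quad w (by rw [hsum]; exact hW) 0
    (MvPolynomial.rename some F + (MvPolynomial.rename some e * MvPolynomial.X none ^ (q + 1) +
      -(MvPolynomial.rename some e * MvPolynomial.rename some h ^ q * MvPolynomial.X none)))
    (Or.inl h2) ?_ ?_ X (MvPolynomial.aeval ![x, y] g * s) ?_ _ ?_
  · intro m hm
    simp at hm
  · rw [hsum]
    refine WD.add ((WD_rename hF).mono h1) (WD.add ?_ ?_)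
    · exact ((WD_rename he).mul (hwX.pow (q + 1))).mono h3
    · exact ((((WD_rename he).mul ((WD_rename hh).pow q)).mul hwX).mono h4).neg
  · rw [map_zero, zero_mul, zero_add]
    simp only [map_add, map_mul, map_neg, map_pow, hXn, hev]
    rw [hv] at hs
    rw [mul_pow, hv]
    linear_combination -hs
  · obtain ⟨M, hM⟩ : ∃ M : IntermediateField Ω N,
      M = adjoin Ω (Set.range X ∪ {MvPolynomial.aeval ![x, y] g * s}) := ⟨_, rfl⟩
    rw [← hM]
    have mX : ∀ o, X o ∈ M := fun o => by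
      rw [hM]
      exact subset_adjoin _ _ (Or.inl ⟨o, rfl⟩)
    have mx : x ∈ M := mX (some 0)
    have my : y ∈ M := mX (some 1)
    have md : MvPolynomial.aeval ![x, y] h * d ∈ M := mX none
    have mr : MvPolynomial.aeval ![x, y] g * s ∈ M := by
      rw [hM]
      exact subset_adjoin _ _ (Or.inr rfl)
    rintro z (rfl | rfl | rfl | rfl)
    · exact mx
    · exact my
    · exact mem_of_mul _ (mem_of_val h x y _ mx my) hh0 md
    · exact mem_of_mul _ (mem_of_val g x y _ mx my) hg0 mr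

/-- `d ^ 2 - d = s ^ 3 - F / g ^ 2`, `g ^ 2 = e h ^ 3` -/
theorem uni_two_pole (a b c : ℕ) (F g e h : MvPolynomial (Fin 2) Ω)
    (D De Dh : ℕ) (hF : ∀ m ∈ F.support, a * m 0 + b * m 1 ≤ D)
    (he : ∀ m ∈ e.support, a * m 0 + b * m 1 ≤ De)
    (hh : ∀ m ∈ h.support, a * m 0 + b * m 1 ≤ Dh) (hgeh : g ^ 2 = e * h ^ 3)
    (hW : 0 < a + b + c) (h1 : D ≤ 2 * (a + b + c)) (h3 : De + 3 * c ≤ 2 * (a + b + c))
    (h4 : De + 3 * Dh ≤ 2 * (a + b + c))
    {N : Type} [Field N] [Algebra Ω N] (x y d s : N)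
    (hg0 : MvPolynomial.aeval ![x, y] g ≠ 0)
    (hs : (d ^ 2 - d) * MvPolynomial.aeval ![x, y] g ^ 2 =
      s ^ 3 * MvPolynomial.aeval ![x, y] g ^ 2 - MvPolynomial.aeval ![x, y] F) :
    Uniruled Ω (adjoin Ω {x, y, d, s} : IntermediateField Ω N) 3 := by
  have hv : MvPolynomial.aeval ![x, y] g ^ 2 =
      MvPolynomial.aeval ![x, y] e * MvPolynomial.aeval ![x, y] h ^ 3 := by
    rw [← map_pow, hgeh, map_mul, map_pow]
  have hh0 : MvPolynomial.aeval ![x, y] h ≠ 0 := by
    intro h0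
    rw [h0, zero_pow (by norm_num), mul_zero] at hv
    exact pow_ne_zero 2 hg0 hv
  set X : Option (Fin 2) → N := fun o => o.elim (MvPolynomial.aeval ![x, y] h * s) ![x, y] with hX
  have hev : ∀ g : MvPolynomial (Fin 2) Ω,
      MvPolynomial.aeval X (MvPolynomial.rename some g) = MvPolynomial.aeval ![x, y] g := by
    intro g
    rw [MvPolynomial.aeval_rename]
    rfl
  have hXn : MvPolynomial.aeval X (MvPolynomial.X none : MvPolynomial (Option (Fin 2)) Ω) =
      MvPolynomial.aeval ![x, y] h * s := by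
    rw [MvPolynomial.aeval_X]
    rfl
  set w : Option (Fin 2) → ℕ := fun o => o.elim c ![a, b] with hw
  have hsum : ∑ i, w i = a + b + c := by
    rw [Fintype.sum_option, Fin.sum_univ_two]
    change c + (a + b) = _
    ring
  have hwX : WD w c (MvPolynomial.X none : MvPolynomial (Option (Fin 2)) Ω) := WD.X none
  have hgp : g ≠ 0 := by
    rintro rfl
    exact hg0 (map_zero _)
  have hgE : ∀ m ∈ g.support, a * m 0 + b * m 1 ≤ a + b + c := by
    have h5 : ∀ m ∈ (g ^ 2).support, a * m 0 + b * m 1 ≤ De + 3 * Dh := by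
      rw [hgeh]
      have he' : WD ![a, b] De e := fun m hm => by
        rw [Fin.sum_univ_two]
        have := he m hm
        change m 0 * a + m 1 * b ≤ _
        rwa [mul_comm (m 0), mul_comm (m 1)]
      have hh' : WD ![a, b] Dh h := fun m hm => by
        rw [Fin.sum_univ_two]
        have := hh m hm
        change m 0 * a + m 1 * b ≤ _
        rwa [mul_comm (m 0), mul_comm (m 1)]
      intro m hm
      have h6 := (he'.mul (hh'.pow 3)) m hm
      rw [Fin.sum_univ_two] at h6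
      change m 0 * a + m 1 * b ≤ _ at h6
      rwa [mul_comm (m 0), mul_comm (m 1)] at h6
    intro m hm
    have h6 := le_of_sq h5 m hm
    omega
  refine uni_in_quad w (by rw [hsum]; exact hW) (MvPolynomial.rename some g)
    (-MvPolynomial.rename some F + MvPolynomial.rename some e *
      MvPolynomial.X none ^ 3) (Or.inr ?_) ?_ ?_ X
    (MvPolynomial.aeval ![x, y] g * d) ?_ _ ?_
  · intro h
    exact hgp (MvPolynomial.rename_injective _ (Option.some_injective _) (h.trans (map_zero _).symm))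
  · rw [hsum]
    exact WD_rename hgE
  · rw [hsum]
    refine WD.add ((WD_rename hF).neg.mono h1) ?_
    exact ((WD_rename he).mul (hwX.pow 3)).mono h3
  · simp only [map_add, map_mul, map_neg, map_pow, hXn, hev]
    linear_combination hs + s ^ 3 * hv
  · obtain ⟨M, hM⟩ : ∃ M : IntermediateField Ω N,
      M = adjoin Ω (Set.range X ∪ {MvPolynomial.aeval ![x, y] g * d}) := ⟨_, rfl⟩
    rw [← hM]
    have mX : ∀ o, X o ∈ M := fun o => by
      rw [hM]
      exact subset_adjoin _ _ (Or.inl ⟨o, rfl⟩)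
    have mx : x ∈ M := mX (some 0)
    have my : y ∈ M := mX (some 1)
    have ms : MvPolynomial.aeval ![x, y] h * s ∈ M := mX none
    have mr : MvPolynomial.aeval ![x, y] g * d ∈ M := by
      rw [hM]
      exact subset_adjoin _ _ (Or.inr rfl)
    rintro z (rfl | rfl | rfl | rfl)
    · exact mx
    · exact my
    · exact mem_of_mul _ (mem_of_val g x y _ mx my) hg0 mr
    · exact mem_of_mul _ (mem_of_val h x y _ mx my) hh0 ms

end

section

variable {p : ℕ} {Ω : Type} [Field Ω] {K : Type} [Field K] [Algebra Ω K]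

theorem geo_of_pole [IsAlgClosed Ω] (hp : p.Prime) (h2 : p = 2 ∨ (2 : Ω) ≠ 0) (a b D De Dh : ℕ)
    (hab : 0 < a + b) (F g e h : MvPolynomial (Fin 2) Ω)
    (hF : ∀ m ∈ F.support, a * m 0 + b * m 1 ≤ D)
    (he : ∀ m ∈ e.support, a * m 0 + b * m 1 ≤ De)
    (hh : ∀ m ∈ h.support, a * m 0 + b * m 1 ≤ Dh) (hgeh : g ^ 2 = e * h ^ max p 3)
    (hE : De + (max p 3 - 2) * Dh ≤ 2 * (a + b))
    (hD : (max p 3 - 2) * D + 2 * De ≤ 2 * max p 3 * (a + b))
    {x y f : K} (hg0 : MvPolynomial.aeval ![x, y] g ≠ 0)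
    (hf : f * MvPolynomial.aeval ![x, y] g ^ 2 = MvPolynomial.aeval ![x, y] F) :
    Geo Ω p (aux p) x y f := by
  intro N _ _ ι d s _ _ hds
  have e1 : MvPolynomial.aeval ![ι x, ι y] g ≠ 0 := by
    rw [← map_aeval75 ι x y g]
    exact (map_ne_zero ι).2 hg0
  have e2 : ι f * MvPolynomial.aeval ![ι x, ι y] g ^ 2 = MvPolynomial.aeval ![ι x, ι y] F := by
    rw [← map_aeval75 ι x y g, ← map_aeval75 ι x y F, ← map_pow, ← map_mul, hf]
  obtain ⟨q, hq⟩ : ∃ q, max p 3 = q + 3 := ⟨max p 3 - 3, by omega⟩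
  rw [hq] at hD hE hgeh
  have hq1 : q + 3 - 2 = q + 1 := by omega
  rw [hq1] at hD hE
  obtain ⟨t, ht⟩ : ∃ t, 2 * (a + b) = De + t := ⟨2 * (a + b) - De, by omega⟩
  have hsc : ∀ (G : MvPolynomial (Fin 2) Ω) (E : ℕ), (∀ m ∈ G.support, a * m 0 + b * m 1 ≤ E) →
      ∀ m ∈ G.support, (q + 1) * a * m 0 + (q + 1) * b * m 1 ≤ (q + 1) * E := by
    intro G E hG m hm
    have h3 := Nat.mul_le_mul_left (q + 1) (hG m hm)
    calc _ = (q + 1) * (a * m 0 + b * m 1) := by ring
      _ ≤ _ := h3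
  have hW : 0 < (q + 1) * a + (q + 1) * b + t := by
    have h3 : 0 < (q + 1) * (a + b) := Nat.mul_pos (by omega) hab
    rw [mul_add] at h3
    omega
  have hW' : 2 * ((q + 1) * a + (q + 1) * b + t) + 2 * De = 2 * (q + 3) * (a + b) := by
    have h4 : 2 * ((q + 1) * a + (q + 1) * b + t) + 2 * De =
        2 * (q + 1) * (a + b) + 2 * (De + t) := by ring
    rw [h4, ← ht]
    ring
  have h1 : (q + 1) * D ≤ 2 * ((q + 1) * a + (q + 1) * b + t) := by omega
  have hW'' : 2 * ((q + 1) * a + (q + 1) * b + t) = (q + 1) * De + (q + 3) * t := by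
    have h4 : 2 * ((q + 1) * a + (q + 1) * b + t) = (q + 1) * (2 * (a + b)) + 2 * t := by ring
    rw [h4, ht]
    ring
  have h3 : (q + 1) * De + (q + 3) * t ≤ 2 * ((q + 1) * a + (q + 1) * b + t) := hW''.ge
  have hDh : (q + 1) * Dh ≤ t := by omega
  by_cases hp2 : p = 2
  · subst hp2
    have hq0 : q = 0 := by
      have : max 2 3 = 3 := rfl
      omega
    subst hq0
    have haux : aux 2 = 3 := rfl
    rw [haux] at hds
    refine uni_two_pole _ _ _ F g e h _ _ _ (hsc F D hF) (hsc e De he) (hsc h Dh hh) hgeh hW h1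
      h3 ?_ (ι x) (ι y) d s e1 ?_
    · rw [hW'']
      omega
    · rw [hds, ← e2]
      ring
  · have haux : aux p = 2 := if_neg hp2
    rw [haux] at hds
    have hp3 : 3 ≤ p := by
      have := hp.two_le
      omega
    have hpq : q + 3 = p := by
      rw [← hq]
      exact max_eq_left hp3
    rw [hpq] at h3 hgeh
    refine uni_odd_pole (h2.resolve_left hp2) p _ _ _ F g e h _ _ _ hp.pos (hsc F D hF)
      (hsc e De he) (hsc h Dh hh) hgeh hW h1 h3 ?_ (ι x) (ι y) d s e1 ?_
    · rw [hW'']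
      have h5 : (p - 1) * ((q + 1) * Dh) ≤ (q + 2) * t := by
        have h6 : p - 1 = q + 2 := by omega
        rw [h6]
        exact Nat.mul_le_mul_left _ hDh
      have h7 : (q + 2) * t + t = (q + 3) * t := by ring
      omega
    · rw [hds, ← e2]
      ring

end

end Pool.Agent.Helper73.QX
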