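import Pool.Agent.Helper73.QX.Defs
import Pool.Agent.Helper73.QX.Good
import Pool.Agent.Helper73.QX.GeoPole
import Pool.Agent.Helper73.QW.Auto
import Pool.Agent.Helper35.WW.Curve
import Pool.Agent.Helper75.TC.Dom

/-!
# Frobenius is semisimple for `w_i ^ p - w_i = f_i (x, y) / g (x, y) ^ 2`
-/

open IntermediateField Module

namespace Pool.Agent.Helper73.QX

open Pool.Agent.Helper75.QC Pool.Agent.Helper73.QW

section

variable {p : ℕ} [hp : Fact p.Prime] {Ω L : Type} [Field Ω] [Algebra (ZMod p) Ω] [Field L]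

theorem two_ne_zero' (hp2 : p ≠ 2) : (2 : Ω) ≠ 0 := by
  have : CharP Ω p := charP_of_injective_algebraMap (algebraMap (ZMod p) Ω).injective p
  intro h
  have h1 : ((2 : ℕ) : Ω) = 0 := by exact_mod_cast h
  rw [CharP.cast_eq_zero_iff Ω p] at h1
  exact hp2 ((Nat.prime_dvd_prime_iff_eq hp.out Nat.prime_two).1 h1)

theorem le_wdeg {R : Type} [CommSemiring R] (a b : ℕ) (P : MvPolynomial (Fin 2) R)
    (m : Fin 2 →₀ ℕ) (hm : m ∈ P.support) : a * m 0 + b * m 1 ≤ wdeg a b P :=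
  Finset.le_sup (f := fun m : Fin 2 →₀ ℕ => a * m 0 + b * m 1) hm

/-- the linear combinations of `w_i ^ p - w_i` -/
theorem geo_comb [IsAlgClosed Ω] {K : Type} [Field K] [Algebra Ω K] {a b r : ℕ}
    {f : Fin r → MvPolynomial (Fin 2) Ω} {g e h : MvPolynomial (Fin 2) Ω} {x y : K} {w : Fin r → K}
    (hab : 0 < a + b) (hg0 : g ≠ 0) (hgeh : g ^ 2 = e * h ^ max p 3)
    (he : wdeg a b e + (max p 3 - 2) * wdeg a b h ≤ 2 * (a + b))
    (hf : ∀ i, (max p 3 - 2) * wdeg a b (f i) + 2 * wdeg a b e ≤ 2 * max p 3 * (a + b))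
    (hxy : AlgebraicIndependent Ω ![x, y])
    (hw : ∀ i, w i ^ p - w i =
      MvPolynomial.aeval ![x, y] (f i) / MvPolynomial.aeval ![x, y] g ^ 2)
    (k : Fin r → ZMod p) : Geo Ω p (aux p) x y (comb p Ω k fun i => w i ^ p - w i) := by
  classical
  have hgv : MvPolynomial.aeval ![x, y] g ≠ 0 := fun h => hg0 (algebraicIndependent_iff.1 hxy g h)
  have h2 : p = 2 ∨ (2 : Ω) ≠ 0 := by
    by_cases hp2 : p = 2
    · exact Or.inl hp2
    · exact Or.inr (two_ne_zero' hp2)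
  obtain ⟨D, hD, hD'⟩ : ∃ D, (∀ i, wdeg a b (f i) ≤ D) ∧
      (max p 3 - 2) * D + 2 * wdeg a b e ≤ 2 * max p 3 * (a + b) := by
    rcases Nat.eq_zero_or_pos r with hr | hr
    · subst hr
      refine ⟨0, fun i => i.elim0, ?_⟩
      have h3 : 2 * 3 * (a + b) ≤ 2 * max p 3 * (a + b) :=
        Nat.mul_le_mul_right _ (Nat.mul_le_mul_left _ (le_max_right _ _))
      omega
    · have hne : (Finset.univ : Finset (Fin r)).Nonempty := ⟨⟨0, hr⟩, Finset.mem_univ _⟩
      obtain ⟨i, -, hi⟩ := Finset.exists_max_image Finset.univ (fun i => wdeg a b (f i)) hne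
      exact ⟨wdeg a b (f i), fun j => hi j (Finset.mem_univ _), hf i⟩
  refine geo_of_pole hp.out h2 a b D (wdeg a b e) (wdeg a b h) hab
    (∑ i, MvPolynomial.C (algebraMap (ZMod p) Ω (k i)) * f i) g e h ?_ (le_wdeg a b e)
    (le_wdeg a b h) hgeh he hD' hgv ?_
  · intro m hm
    have h3 : ∃ i, m ∈ (f i).support := by
      by_contra hcon
      push Not at hcon
      rw [MvPolynomial.mem_support_iff] at hm
      apply hm
      rw [MvPolynomial.coeff_sum]
      refine Finset.sum_eq_zero fun i _ => ?_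
      rw [MvPolynomial.coeff_C_mul, MvPolynomial.notMem_support_iff.1 (hcon i), mul_zero]
    obtain ⟨i, hi⟩ := h3
    exact (le_wdeg a b (f i) m hi).trans (hD i)
  · unfold comb
    rw [map_sum, Finset.sum_mul]
    refine Finset.sum_congr rfl fun i _ => ?_
    show em p Ω K (k i) * (w i ^ p - w i) * _ = _
    rw [map_mul, MvPolynomial.aeval_C, hw i, mul_assoc, div_mul_cancel₀ _ (pow_ne_zero _ hgv)]
    rfl

theorem cov_of {K : Type} [Field K] [Algebra Ω K] {r : ℕ}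
    {f : Fin r → MvPolynomial (Fin 2) Ω} {g : MvPolynomial (Fin 2) Ω} {x y : K} {w : Fin r → K}
    (hxy : AlgebraicIndependent Ω ![x, y]) (hK : adjoin Ω ({x, y} ∪ Set.range w) = ⊤)
    (hw : ∀ i, w i ^ p - w i =
      MvPolynomial.aeval ![x, y] (f i) / MvPolynomial.aeval ![x, y] g ^ 2) : Cov p Ω x y w where
  top := hK
  indep := hxy
  hw := by
    intro i
    have hx : x ∈ adjoin Ω {x, y} := subset_adjoin Ω _ (by simp)
    have hy : y ∈ adjoin Ω {x, y} := subset_adjoin Ω _ (by simp)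
    rw [hw i]
    exact div_mem (aeval_mem_of _ hx hy _) (pow_mem (aeval_mem_of _ hx hy _) 2)

/-- from the endomorphisms of a generating set to all surfaces which are dominated by `K` -/
theorem finish [IsAlgClosure (ZMod p) Ω] [CharZero L] [IsAlgClosed L] (T : Theory p Ω L)
    {K K₀ : Type} [Field K] [Algebra Ω K] (S : Set K) (hS : S.Finite) (htop : adjoin Ω S = ⊤)
    (hK : ∀ (e : ℕ) (φ : K →ₐ[Ω] K), Even e → (∀ s ∈ S, φ s = s ^ p ^ e) →
      End.IsSemisimple (T.map 2 φ)) [Field K₀] [Algebra Ω K₀]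
    (hfin : (⊤ : IntermediateField Ω K₀).FG) (ι : K₀ →ₐ[Ω] K)
    (hι : ∀ a : K, IsAlgebraic ι.fieldRange a) {e : ℕ} (φ₀ : K₀ →ₐ[Ω] K₀)
    (h₀ : IsFrob (p ^ e) φ₀) {V : Type} [AddCommGroup V] [Module L V] (Fr : Module.End L V)
    (r : V →ₗ[L] T.H 2 K₀) (hV : IsH2 T (p ^ e) φ₀ Fr r) : Fr.IsSemisimple := by
  have : CharP Ω p := charP_of_injective_algebraMap (algebraMap (ZMod p) Ω).injective p
  have : IsAlgClosed Ω := IsAlgClosure.isAlgClosed (ZMod p)
  have : Algebra.IsAlgebraic (ZMod p) Ω := IsAlgClosure.isAlgebraic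
  have : PerfectRing Ω p := inferInstance
  obtain ⟨m, φ, hm, hφ, hφ₀⟩ := exists_compatible (p := p) S hS htop hfin ι φ₀ h₀
  have e2 : End.IsSemisimple (T.map 2 (φ.comp φ)) := by
    refine hK (e * m + e * m) _ ⟨e * m, rfl⟩ fun s hs => ?_
    rw [AlgHom.comp_apply, hφ s hs, map_pow, hφ s hs, ← pow_mul, ← pow_add]
  have hfinK : (⊤ : IntermediateField Ω K).FG := by
    rw [← htop]
    exact fg_adjoin_of_finite hS
  have e3 := Pool.Agent.Helper75.TC.semisimple_of_dom T hfinK ι hι (m := m + m) (by omega) φ₀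
    (φ.comp φ) h₀ (fun a => by
      rw [AlgHom.comp_apply, hφ₀, hφ₀, pow_add]
      rfl) e2
  obtain ⟨m', hm', hk'⟩ := hV.classes
  refine semisimple_of_parts Fr (T.map 2 φ₀) r hV.comm e3 ((p ^ e : ℕ) : L) ?_ hm' hk' hV.compl
  exact_mod_cast pow_ne_zero _ hp.out.ne_zero

end

end Pool.Agent.Helper73.QX
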