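import Pool.Agent.Helper73.QX.Group
import Pool.Agent.Helper73.QX.Curve

/-!
# The cross product of a class of the covering and a class of the auxiliary curve
-/

open IntermediateField

namespace Pool.Agent.Helper73.QX

open Pool.Agent.Helper75.QC Pool.Agent.Helper73.QW

/-- the threefold `d ^ p - d = s ^ m - f (x, y)` is uniruled -/
def Geo (Ω : Type) [Field Ω] (p m : ℕ) {K : Type} [Field K] [Algebra Ω K] (x y f : K) : Prop :=
  ∀ (N : Type) [Field N] [Algebra Ω N] (a : K →ₐ[Ω] N) (d s : N),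
    Transcendental a.fieldRange d → Transcendental a.fieldRange s → d ^ p - d = s ^ m - a f →
      Uniruled Ω (adjoin Ω {a x, a y, d, s} : IntermediateField Ω N) 3

section

variable {p : ℕ} [hp : Fact p.Prime] {Ω L : Type} [Field Ω] [Algebra (ZMod p) Ω] [Field L]
    {K : Type} [Field K] [Algebra Ω K] {r : ℕ} {x y : K} {w : Fin r → K}

theorem Cov.cross_zero (T : BaseTheory Ω L) (hC : Cov p Ω x y w) (k : Fin r → ZMod p) {m : ℕ}
    (hG : Geo Ω p m x y (comb p Ω k fun i => w i ^ p - w i)) (ψ : AddChar (ZMod p) L)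
    {C N : Type} [Field C] [Algebra Ω C] [Field N] [Algebra Ω N] (u s : C)
    (hs : u ^ p - u = s ^ m) (hCt : adjoin Ω {u, s} = ⊤)
    (a : K →ₐ[Ω] N) (b : C →ₐ[Ω] N) (hb : Transcendental a.fieldRange (b u))
    (hN : adjoin Ω (Set.range a ∪ {b u, b s}) = ⊤)
    (hsig : ∀ c : ZMod p, ∃ τ : C →ₐ[Ω] C, τ u = u + em p Ω C c ∧ τ s = s)
    (z : T.H 1 C) (hz : ∀ (c : ZMod p) (σ : C →ₐ[Ω] C), σ u = u + em p Ω C c → σ s = s →
      T.map 1 σ z = (ψ c)⁻¹ • z) (t : T.H 2 K)
    (ht : ∀ τ : Gp Ω x y, T.map 2 (toHom τ) t = ψ (∑ i, k i * hC.sh τ i) • t) :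
    T.cup N (T.map 2 a t) (T.map 1 b z) = 0 := by
  obtain ⟨v, hv⟩ : ∃ v : K, v = comb p Ω k w := ⟨_, rfl⟩
  obtain ⟨d, hd⟩ : ∃ d, d = b u - a v := ⟨_, rfl⟩
  have hbu : b u = d + a v := by
    rw [hd]
    ring
  obtain ⟨N0, hN0⟩ : ∃ N0 : IntermediateField Ω N, N0 = adjoin Ω {a x, a y, d, b s} := ⟨_, rfl⟩
  have hx : a x ∈ N0 := by
    rw [hN0]
    exact subset_adjoin Ω _ (by simp)
  have hy : a y ∈ N0 := by
    rw [hN0]
    exact subset_adjoin Ω _ (by simp)
  have hdN : d ∈ N0 := by
    rw [hN0]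
    exact subset_adjoin Ω _ (by simp)
  have hsN : b s ∈ N0 := by
    rw [hN0]
    exact subset_adjoin Ω _ (by simp)
  have hle : ∀ c ∈ adjoin Ω {x, y}, a c ∈ N0 := by
    intro c hc
    have h3 : adjoin Ω {x, y} ≤ N0.comap a := by
      rw [adjoin_le_iff]
      rintro c (rfl | hc)
      · exact hx
      · rw [Set.mem_singleton_iff] at hc
        rw [hc]
        exact hy
    exact h3 hc
  have hw0 : ∀ i, a (w i) ^ p - a (w i) ∈ N0 := by
    intro i
    have := hle _ (hC.hw i)
    rwa [map_sub, map_pow] at this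
  obtain ⟨g1, g2⟩ := galois_of (fun i => a (w i)) N0 hw0 (by
    intro M hM hwM
    have hra : ∀ e, a e ∈ M := by
      intro e
      have h3 : adjoin Ω ({x, y} ∪ Set.range w) ≤ M.comap a := by
        rw [adjoin_le_iff]
        rintro c ((rfl | hc) | ⟨i, rfl⟩)
        · exact hM hx
        · rw [Set.mem_singleton_iff] at hc
          rw [hc]
          exact hM hy
        · exact hwM i
      exact h3 (by rw [hC.top]; exact mem_top)
    rw [eq_top_iff, ← hN, adjoin_le_iff]
    rintro c (⟨e, rfl⟩ | rfl | hc)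
    · exact hra e
    · rw [hbu]
      exact add_mem (hM hdN) (hra v)
    · rw [Set.mem_singleton_iff] at hc
      rw [hc]
      exact hM hsN)
  have hav : a v ^ p - a v = a (comb p Ω k fun i => w i ^ p - w i) := by
    rw [← map_pow, ← map_sub, hv, comb_sub]
  have hun : Uniruled Ω N0 3 := by
    obtain ⟨M, hM⟩ : ∃ M : IntermediateField Ω N, M =
      (algebraicClosure a.fieldRange N).restrictScalars Ω := ⟨_, rfl⟩
    have hmem : ∀ e : N, e ∈ M ↔ IsAlgebraic a.fieldRange e := by
      intro e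
      rw [hM, mem_restrictScalars, mem_algebraicClosure_iff]
    have haM : ∀ e : K, a e ∈ M := fun e =>
      (hmem _).2 (isAlgebraic_algebraMap (⟨a e, ⟨e, rfl⟩⟩ : a.fieldRange))
    have hdt : Transcendental a.fieldRange d := by
      intro h3
      apply hb
      rw [← hmem, hbu]
      exact add_mem ((hmem d).2 h3) (haM v)
    have hst : Transcendental a.fieldRange (b s) := by
      intro h3
      apply hb
      have h4 : IsAlgebraic (algebraicClosure a.fieldRange N) (b u) := by
        obtain ⟨P, hP1, hP2, -⟩ := as_poly p Ω (F := algebraicClosure a.fieldRange N) (b u)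
          ⟨b s ^ m, pow_mem ((mem_algebraicClosure_iff).2 h3) m⟩ (by
            have e1 : b u ^ p - b u = b s ^ m := by
              rw [← map_pow, ← map_sub, hs, map_pow]
            rw [e1]
            rfl)
        exact ⟨P, hP1.ne_zero, hP2⟩
      exact h4.restrictScalars a.fieldRange
    rw [hN0]
    refine hG N a d (b s) hdt hst ?_
    have := charP_of p Ω N
    rw [hd, sub_pow_char, ← map_pow b s m, ← hs, ← hav, map_sub, map_pow]
    ring
  refine cross_general T a b N0 hun t z ?_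
  intro τ
  obtain ⟨τ', hτ'⟩ : ∃ τ' : N →ₐ[Ω] N, τ' = τ.restrictScalars Ω := ⟨_, rfl⟩
  have hfix : ∀ e ∈ N0, τ' e = e := by
    intro e he
    rw [hτ']
    exact τ.commutes ⟨e, he⟩
  rw [← hτ']
  have hsh : ∀ i, ∃ c : ZMod p, τ' (a (w i)) = a (w i) + em p Ω N c := by
    intro i
    apply exists_em_of_eq p Ω
    rw [← map_pow, ← map_sub, hfix _ (hw0 i)]
  choose c hc using hsh
  obtain ⟨τK, hK⟩ := exists_restrict a τ' ({x, y} ∪ Set.range w) hC.top (by
    rintro e ((rfl | he) | ⟨i, rfl⟩)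
    · rw [hfix _ hx]
      exact ⟨e, rfl⟩
    · rw [Set.mem_singleton_iff] at he
      rw [he, hfix _ hy]
      exact ⟨y, rfl⟩
    · rw [hc i, ← map_em p Ω a, ← map_add]
      exact ⟨_, rfl⟩)
  have hKe : ∀ e, a (τK e) = τ' (a e) := by
    intro e
    have := DFunLike.congr_fun hK e
    rw [AlgHom.comp_apply, AlgHom.comp_apply] at this
    exact this.symm
  have hKx : τK x = x := by
    apply a.injective
    exact (hKe x).trans (hfix _ hx)
  have hKy : τK y = y := by
    apply a.injective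
    exact (hKe y).trans (hfix _ hy)
  have hKw : ∀ i, τK (w i) = w i + em p Ω K (c i) := by
    intro i
    apply a.injective
    refine (hKe _).trans ((hc i).trans ?_)
    have := map_add a (w i) (em p Ω K (c i))
    rw [map_em] at this
    exact this.symm
  obtain ⟨σ, hσ⟩ := hC.exists_toHom τK hKx hKy
  have hshσ : hC.sh σ = c := by
    funext i
    apply hC.sh_unique
    rw [hσ, hKw]
  obtain ⟨τC, hCu, hCs⟩ := hsig (∑ i, k i * c i)
  have hCC : τ'.comp b = b.comp τC := by
    refine Pool.Agent.Helper75.QC.hom_ext {u, s} hCt _ _ ?_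
    rintro e (rfl | he)
    · rw [AlgHom.comp_apply, AlgHom.comp_apply, hCu, map_add, map_em, hbu, map_add, hfix _ hdN,
        hv, map_comb, map_comb]
      simp only [hc]
      rw [comb_shift]
      ring
    · rw [Set.mem_singleton_iff] at he
      rw [he, AlgHom.comp_apply, AlgHom.comp_apply, hCs, hfix _ hsN]
  refine ⟨τK, τC, 1, hK, hCC, one_mul 1, ψ (∑ i, k i * c i), ?_, ?_, ?_⟩
  · intro h
    have h1 := ψ.map_add_eq_mul (∑ i, k i * c i) (-∑ i, k i * c i)
    rw [h, zero_mul, add_neg_cancel, ψ.map_zero_eq_one] at h1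
    exact one_ne_zero h1
  · rw [one_mul, ← hσ, ht σ, hshσ]
  · rw [one_mul, hz _ τC hCu hCs]

end

end Pool.Agent.Helper73.QX
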