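import Pool.Agent.Helper75.QC.Defs

/-!
# `p`-covers of the plane: the definitions
-/

open IntermediateField

namespace Pool.Agent.Helper73.QX

/-- the degree of a polynomial in two variables for the weights `a, b` -/
def wdeg {R : Type} [CommSemiring R] (a b : ℕ) (P : MvPolynomial (Fin 2) R) : ℕ :=
  P.support.sup fun m => a * m 0 + b * m 1

/-- `K = Ω(x, y, t, w₁, …, wᵣ)`, `x`, `y` are algebraically independent, `t = 0` or `p = 2`,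
`t ^ 4 + t = B / (e h ^ 2)`, `wᵢ ^ p - wᵢ = fᵢ / g ^ 2` or `wᵢ ^ p - wᵢ = t ^ 3 + fᵢ / g ^ 2`, where
`fᵢ`, `B`, `g`, `e`, `h` are polynomials in `x`, `y`, `g ^ 2 = e h ^ P ≠ 0`, `P = max (p, 3)`, and,
for some weights `a`, `b` of `x`, `y` which are not both zero,
`deg e + (P - 2) deg h ≤ 2 (a + b)`, `(P - 2) deg fᵢ + 2 deg e ≤ 2 P (a + b)`,
`deg B + deg e ≤ 4 (a + b)`. -/
def IsWildPlane (p : ℕ) (Ω K : Type) [Field Ω] [Field K] [Algebra Ω K] : Prop :=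
  ∃ (a b r : ℕ) (f : Fin r → MvPolynomial (Fin 2) Ω) (B g e h : MvPolynomial (Fin 2) Ω)
    (x y t : K) (w : Fin r → K), 0 < a + b ∧ g ≠ 0 ∧ g ^ 2 = e * h ^ max p 3 ∧
    wdeg a b e + (max p 3 - 2) * wdeg a b h ≤ 2 * (a + b) ∧
    (∀ i, (max p 3 - 2) * wdeg a b (f i) + 2 * wdeg a b e ≤ 2 * max p 3 * (a + b)) ∧
    wdeg a b B + wdeg a b e ≤ 4 * (a + b) ∧
    AlgebraicIndependent Ω ![x, y] ∧ adjoin Ω ({x, y, t} ∪ Set.range w) = ⊤ ∧
    (t = 0 ∨ p = 2) ∧ t ^ 4 + t =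
      MvPolynomial.aeval ![x, y] B / (MvPolynomial.aeval ![x, y] (e * h ^ 2)) ∧
    ∀ i, w i ^ p - w i = MvPolynomial.aeval ![x, y] (f i) / MvPolynomial.aeval ![x, y] g ^ 2 ∨
      w i ^ p - w i = t ^ 3 + MvPolynomial.aeval ![x, y] (f i) / MvPolynomial.aeval ![x, y] g ^ 2

end Pool.Agent.Helper73.QX
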