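import Pool.Agent.Helper73.QX.Cross
import Pool.Agent.Helper40.SD.Gpair

/-!
# The threefolds `d ^ p - d = s ^ 2 - f / g ^ 2` and `d ^ 2 - d = s ^ 3 - f / g ^ 2` are uniruled

The weights of `x`, `y` are `a`, `b`; the condition is `deg g ≤ a + b`,
`(P - 2) deg f + 4 deg g ≤ 2 P (a + b)`, `P = max p 3`.
-/

set_option autoImplicit false

open IntermediateField

namespace Pool.Agent.Helper73.QX

open Pool.Agent.Helper75.QC Pool.Agent.Helper73.QW Pool.Agent.Helper40.SD

/-- the exponent of `s` in the auxiliary curve `u ^ p - u = s ^ m` -/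
def aux (p : ℕ) : ℕ := if p = 2 then 3 else 2

theorem aux_prime (p : ℕ) : (aux p).Prime := by
  unfold aux
  split_ifs
  · exact Nat.prime_three
  · exact Nat.prime_two

section

variable {Ω : Type} [Field Ω] [IsAlgClosed Ω]

private theorem mem_of73 {N : Type} [Field N] [Algebra Ω N]
    (f : MvPolynomial (Fin 2) Ω) (x y : N) (F : IntermediateField Ω N)
    (hx : x ∈ F) (hy : y ∈ F) : MvPolynomial.aeval ![x, y] f ∈ F := by
  have h := map_aeval75 F.val (⟨x, hx⟩ : F) ⟨y, hy⟩ f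
  change ((MvPolynomial.aeval ![(⟨x, hx⟩ : F), ⟨y, hy⟩] f : F) : N) = _ at h
  rw [show MvPolynomial.aeval ![x, y] f = ((MvPolynomial.aeval ![(⟨x, hx⟩ : F), ⟨y, hy⟩] f : F) : N)
    from h.symm]
  exact Subtype.property _

private theorem mem_of_mul73 {N : Type} [Field N] [Algebra Ω N] (F : IntermediateField Ω N)
    {c z : N} (hc : c ∈ F) (hc0 : c ≠ 0) (h : c * z ∈ F) : z ∈ F := by
  have h5 : c * z / c = z := by
    field_simp
  rw [← h5]
  exact div_mem h hc

/-- `d ^ p - d = s ^ 2 - F / g ^ 2` -/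
theorem uni_odd (h2 : (2 : Ω) ≠ 0) (p a b c : ℕ) (F g : MvPolynomial (Fin 2) Ω)
    (D E : ℕ) (hp : 0 < p) (hF : ∀ m ∈ F.support, a * m 0 + b * m 1 ≤ D)
    (hg : ∀ m ∈ g.support, a * m 0 + b * m 1 ≤ E) (hW : 0 < a + b + c)
    (h1 : D ≤ 2 * (a + b + c)) (h3 : 2 * E + p * c ≤ 2 * (a + b + c))
    {N : Type} [Field N] [Algebra Ω N] (x y d s : N)
    (hg0 : MvPolynomial.aeval ![x, y] g ≠ 0)
    (hs : (d ^ p - d) * MvPolynomial.aeval ![x, y] g ^ 2 =
      s ^ 2 * MvPolynomial.aeval ![x, y] g ^ 2 - MvPolynomial.aeval ![x, y] F) :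
    Uniruled Ω (adjoin Ω {x, y, d, s} : IntermediateField Ω N) 3 := by
  set X : Option (Fin 2) → N := fun o => o.elim d ![x, y] with hX
  have hev : ∀ g : MvPolynomial (Fin 2) Ω,
      MvPolynomial.aeval X (MvPolynomial.rename some g) = MvPolynomial.aeval ![x, y] g := by
    intro g
    rw [MvPolynomial.aeval_rename]
    rfl
  have hXn : MvPolynomial.aeval X (MvPolynomial.X none : MvPolynomial (Option (Fin 2)) Ω) = d := by
    rw [MvPolynomial.aeval_X]
    rfl
  set w : Option (Fin 2) → ℕ := fun o => o.elim c ![a, b] with hw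
  have hsum : ∑ i, w i = a + b + c := by
    rw [Fintype.sum_option, Fin.sum_univ_two]
    change c + (a + b) = _
    ring
  have hwX : WD w c (MvPolynomial.X none : MvPolynomial (Option (Fin 2)) Ω) := WD.X none
  have hup : ∀ (g : MvPolynomial (Fin 2) Ω) (D : ℕ),
      (∀ m ∈ g.support, a * m 0 + b * m 1 ≤ D) → WD w D (MvPolynomial.rename some g) := by
    intro g D hg
    refine WD.rename (fun m hm => ?_)
    rw [Fin.sum_univ_two]
    have h4 := hg m hm
    change m 0 * a + m 1 * b ≤ _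
    rw [mul_comm (m 0), mul_comm (m 1)]
    exact h4
  refine uni_in_quad w (by rw [hsum]; exact hW) 0
    (MvPolynomial.rename some F + MvPolynomial.rename some g ^ 2 *
      (MvPolynomial.X none ^ p + -MvPolynomial.X none)) (Or.inl h2) ?_ ?_ X
    (MvPolynomial.aeval ![x, y] g * s) ?_ _ ?_
  · intro m hm
    simp at hm
  · rw [hsum]
    refine WD.add ((hup F D hF).mono h1) ?_
    have e1 : WD w (p * c) (MvPolynomial.X none ^ p + -MvPolynomial.X none :
        MvPolynomial (Option (Fin 2)) Ω) := by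
      refine (hwX.pow p).add (hwX.neg.mono ?_)
      exact Nat.le_mul_of_pos_left c hp
    exact (((hup g E hg).pow 2).mul e1).mono h3
  · rw [map_zero, zero_mul, zero_add]
    simp only [map_add, map_mul, map_neg, map_pow, hXn, hev]
    linear_combination -hs
  · have mX : ∀ o, X o ∈ adjoin Ω (Set.range X ∪ {MvPolynomial.aeval ![x, y] g * s}) :=
      fun o => subset_adjoin _ _ (Or.inl ⟨o, rfl⟩)
    have mx : x ∈ adjoin Ω (Set.range X ∪ {MvPolynomial.aeval ![x, y] g * s}) := mX (some 0)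
    have my : y ∈ adjoin Ω (Set.range X ∪ {MvPolynomial.aeval ![x, y] g * s}) := mX (some 1)
    have md : d ∈ adjoin Ω (Set.range X ∪ {MvPolynomial.aeval ![x, y] g * s}) := mX none
    have mr : MvPolynomial.aeval ![x, y] g * s ∈
        adjoin Ω (Set.range X ∪ {MvPolynomial.aeval ![x, y] g * s}) :=
      subset_adjoin _ _ (Or.inr rfl)
    rintro z (rfl | rfl | rfl | rfl)
    · exact mx
    · exact my
    · exact md
    · exact mem_of_mul73 _ (mem_of73 g x y _ mx my) hg0 mr

/-- `d ^ 2 - d = s ^ 3 - F / g ^ 2` -/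
theorem uni_two (a b c : ℕ) (F g : MvPolynomial (Fin 2) Ω)
    (D E : ℕ) (hF : ∀ m ∈ F.support, a * m 0 + b * m 1 ≤ D)
    (hg : ∀ m ∈ g.support, a * m 0 + b * m 1 ≤ E) (hW : 0 < a + b + c)
    (h1 : D ≤ 2 * (a + b + c)) (h3 : 2 * E + 3 * c ≤ 2 * (a + b + c))
    {N : Type} [Field N] [Algebra Ω N] (x y d s : N)
    (hg0 : MvPolynomial.aeval ![x, y] g ≠ 0)
    (hs : (d ^ 2 - d) * MvPolynomial.aeval ![x, y] g ^ 2 =
      s ^ 3 * MvPolynomial.aeval ![x, y] g ^ 2 - MvPolynomial.aeval ![x, y] F) :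
    Uniruled Ω (adjoin Ω {x, y, d, s} : IntermediateField Ω N) 3 := by
  set X : Option (Fin 2) → N := fun o => o.elim s ![x, y] with hX
  have hev : ∀ g : MvPolynomial (Fin 2) Ω,
      MvPolynomial.aeval X (MvPolynomial.rename some g) = MvPolynomial.aeval ![x, y] g := by
    intro g
    rw [MvPolynomial.aeval_rename]
    rfl
  have hXn : MvPolynomial.aeval X (MvPolynomial.X none : MvPolynomial (Option (Fin 2)) Ω) = s := by
    rw [MvPolynomial.aeval_X]
    rfl
  set w : Option (Fin 2) → ℕ := fun o => o.elim c ![a, b] with hw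
  have hsum : ∑ i, w i = a + b + c := by
    rw [Fintype.sum_option, Fin.sum_univ_two]
    change c + (a + b) = _
    ring
  have hwX : WD w c (MvPolynomial.X none : MvPolynomial (Option (Fin 2)) Ω) := WD.X none
  have hup : ∀ (g : MvPolynomial (Fin 2) Ω) (D : ℕ),
      (∀ m ∈ g.support, a * m 0 + b * m 1 ≤ D) → WD w D (MvPolynomial.rename some g) := by
    intro g D hg
    refine WD.rename (fun m hm => ?_)
    rw [Fin.sum_univ_two]
    have h4 := hg m hm
    change m 0 * a + m 1 * b ≤ _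
    rw [mul_comm (m 0), mul_comm (m 1)]
    exact h4
  have hgp : g ≠ 0 := by
    rintro rfl
    exact hg0 (map_zero _)
  refine uni_in_quad w (by rw [hsum]; exact hW) (MvPolynomial.rename some g)
    (-MvPolynomial.rename some F + MvPolynomial.rename some g ^ 2 *
      MvPolynomial.X none ^ 3) (Or.inr ?_) ?_ ?_ X
    (MvPolynomial.aeval ![x, y] g * d) ?_ _ ?_
  · intro h
    exact hgp (MvPolynomial.rename_injective _ (Option.some_injective _) (h.trans (map_zero _).symm))
  · rw [hsum]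
    exact (hup g E hg).mono (by omega)
  · rw [hsum]
    refine WD.add ((hup F D hF).neg.mono h1) ?_
    exact (((hup g E hg).pow 2).mul (hwX.pow 3)).mono h3
  · simp only [map_add, map_mul, map_neg, map_pow, hXn, hev]
    linear_combination hs
  · have mX : ∀ o, X o ∈ adjoin Ω (Set.range X ∪ {MvPolynomial.aeval ![x, y] g * d}) :=
      fun o => subset_adjoin _ _ (Or.inl ⟨o, rfl⟩)
    have mx : x ∈ adjoin Ω (Set.range X ∪ {MvPolynomial.aeval ![x, y] g * d}) := mX (some 0)
    have my : y ∈ adjoin Ω (Set.range X ∪ {MvPolynomial.aeval ![x, y] g * d}) := mX (some 1)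
    have ms : s ∈ adjoin Ω (Set.range X ∪ {MvPolynomial.aeval ![x, y] g * d}) := mX none
    have mr : MvPolynomial.aeval ![x, y] g * d ∈
        adjoin Ω (Set.range X ∪ {MvPolynomial.aeval ![x, y] g * d}) :=
      subset_adjoin _ _ (Or.inr rfl)
    rintro z (rfl | rfl | rfl | rfl)
    · exact mx
    · exact my
    · exact mem_of_mul73 _ (mem_of73 g x y _ mx my) hg0 mr
    · exact ms

end

section

variable {p : ℕ} {Ω : Type} [Field Ω] {K : Type} [Field K] [Algebra Ω K]

theorem geo_of_degree [IsAlgClosed Ω] (hp : p.Prime) (h2 : p = 2 ∨ (2 : Ω) ≠ 0) (a b D E : ℕ)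
    (hab : 0 < a + b) (F g : MvPolynomial (Fin 2) Ω)
    (hF : ∀ m ∈ F.support, a * m 0 + b * m 1 ≤ D) (hg : ∀ m ∈ g.support, a * m 0 + b * m 1 ≤ E)
    (hE : E ≤ a + b) (hD : (max p 3 - 2) * D + 4 * E ≤ 2 * max p 3 * (a + b))
    {x y f : K} (hg0 : MvPolynomial.aeval ![x, y] g ≠ 0)
    (hf : f * MvPolynomial.aeval ![x, y] g ^ 2 = MvPolynomial.aeval ![x, y] F) :
    Geo Ω p (aux p) x y f := by
  intro N _ _ ι d s _ _ hds
  have e1 : MvPolynomial.aeval ![ι x, ι y] g ≠ 0 := by
    rw [← map_aeval75 ι x y g]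
    exact (map_ne_zero ι).2 hg0
  have e2 : ι f * MvPolynomial.aeval ![ι x, ι y] g ^ 2 = MvPolynomial.aeval ![ι x, ι y] F := by
    rw [← map_aeval75 ι x y g, ← map_aeval75 ι x y F, ← map_pow, ← map_mul, hf]
  obtain ⟨q, hq⟩ : ∃ q, max p 3 = q + 3 := ⟨max p 3 - 3, by omega⟩
  rw [hq] at hD
  have hq1 : q + 3 - 2 = q + 1 := by omega
  rw [hq1] at hD
  obtain ⟨t, ht⟩ := Nat.exists_eq_add_of_le hE
  have hF' : ∀ m ∈ F.support, (q + 1) * a * m 0 + (q + 1) * b * m 1 ≤ (q + 1) * D := by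
    intro m hm
    have h3 := Nat.mul_le_mul_left (q + 1) (hF m hm)
    calc _ = (q + 1) * (a * m 0 + b * m 1) := by ring
      _ ≤ _ := h3
  have hg' : ∀ m ∈ g.support, (q + 1) * a * m 0 + (q + 1) * b * m 1 ≤ (q + 1) * E := by
    intro m hm
    have h3 := Nat.mul_le_mul_left (q + 1) (hg m hm)
    calc _ = (q + 1) * (a * m 0 + b * m 1) := by ring
      _ ≤ _ := h3
  have hW : 0 < (q + 1) * a + (q + 1) * b + 2 * t := by
    have h3 : 0 < (q + 1) * (a + b) := Nat.mul_pos (by omega) hab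
    rw [mul_add] at h3
    omega
  have hW' : 2 * ((q + 1) * a + (q + 1) * b + 2 * t) + 4 * E = 2 * (q + 3) * (a + b) := by
    have h4 : 2 * ((q + 1) * a + (q + 1) * b + 2 * t) + 4 * E =
        2 * (q + 1) * (a + b) + 4 * (E + t) := by ring
    rw [h4, ← ht]
    ring
  have h1 : (q + 1) * D ≤ 2 * ((q + 1) * a + (q + 1) * b + 2 * t) := by omega
  have h3 : 2 * ((q + 1) * E) + (q + 3) * (2 * t) ≤
      2 * ((q + 1) * a + (q + 1) * b + 2 * t) := by
    apply le_of_eq
    have h4 : 2 * ((q + 1) * a + (q + 1) * b + 2 * t) = 2 * (q + 1) * (a + b) + 4 * t := by ring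
    rw [h4, ht]
    ring
  by_cases hp2 : p = 2
  · subst hp2
    have hq0 : q = 0 := by
      have : max 2 3 = 3 := rfl
      omega
    subst hq0
    have haux : aux 2 = 3 := rfl
    rw [haux] at hds
    refine uni_two _ _ _ F g _ _ hF' hg' hW h1 h3 (ι x) (ι y) d s e1 ?_
    rw [hds, ← e2]
    ring
  · have haux : aux p = 2 := if_neg hp2
    rw [haux] at hds
    have hp3 : 3 ≤ p := by
      have := hp.two_le
      omega
    have hpq : q + 3 = p := by
      rw [← hq]
      exact max_eq_left hp3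
    rw [hpq] at h3
    refine uni_odd (h2.resolve_left hp2) p _ _ _ F g _ _ hp.pos hF' hg' hW h1 h3 (ι x) (ι y) d s
      e1 ?_
    rw [hds, ← e2]
    ring

end

end Pool.Agent.Helper73.QX
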