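import Pool.Agent.Helper73.QX.Root
import Pool.Agent.Helper73.QW.Group

/-!
# The group of the covering `w_i ^ p - w_i = f_i (x, y)` of the plane
-/

open IntermediateField

namespace Pool.Agent.Helper73.QX

open Pool.Agent.Helper75.QC Pool.Agent.Helper73.QW

/-- the field generated by `x, y` and `w_i`, where `w_i ^ p - w_i` is a function of `x, y` -/
structure Cov (p : ℕ) (Ω : Type) [Field Ω] {K : Type} [Field K] [Algebra Ω K] {r : ℕ} (x y : K)
    (w : Fin r → K) : Prop where
  top : adjoin Ω ({x, y} ∪ Set.range w) = ⊤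
  indep : AlgebraicIndependent Ω ![x, y]
  hw : ∀ i, w i ^ p - w i ∈ adjoin Ω {x, y}

section

variable {p : ℕ} [hp : Fact p.Prime] {Ω : Type} [Field Ω] [Algebra (ZMod p) Ω]

/-- a field over a field which contains `w_i ^ p - w_i` and is generated by the `w_i` -/
theorem galois_of {K : Type} [Field K] [Algebra Ω K] {r : ℕ} (w : Fin r → K)
    (N0 : IntermediateField Ω K) (hf : ∀ i, w i ^ p - w i ∈ N0)
    (htop : ∀ M : IntermediateField Ω K, N0 ≤ M → (∀ i, w i ∈ M) → M = ⊤) :
    FiniteDimensional N0 K ∧ IsGalois N0 K := by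
  have htop' : adjoin N0 (Set.range w) = ⊤ := by
    have h3 : (adjoin N0 (Set.range w)).restrictScalars Ω = ⊤ := by
      apply htop
      · intro c hc
        exact (adjoin N0 (Set.range w)).algebraMap_mem ⟨c, hc⟩
      · intro i
        exact subset_adjoin N0 (Set.range w) ⟨i, rfl⟩
    rw [eq_top_iff]
    intro c _
    have : c ∈ (adjoin N0 (Set.range w)).restrictScalars Ω := by
      rw [h3]
      exact mem_top
    exact this
  refine gal_of_roots (Set.range w) (Set.finite_range w) htop' ?_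
  rintro _ ⟨i, rfl⟩
  exact as_poly p Ω (w i) ⟨_, hf i⟩ rfl

variable {K : Type} [Field K] [Algebra Ω K] {r : ℕ} {x y : K} {w : Fin r → K}

theorem Cov.exists_shift (hC : Cov p Ω x y w) (τ : K →ₐ[Ω] K) (hx : τ x = x) (hy : τ y = y) :
    ∃ c : Fin r → ZMod p, ∀ i, τ (w i) = w i + em p Ω K (c i) := by
  have h : ∀ i, ∃ c : ZMod p, τ (w i) = w i + em p Ω K c := by
    intro i
    apply exists_em_of_eq p Ω
    rw [← map_pow, ← map_sub, fix_of_mem τ hx hy (hC.hw i)]
  choose c hc using h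
  exact ⟨c, hc⟩

noncomputable def Cov.sh (hC : Cov p Ω x y w) (τ : Gp Ω x y) : Fin r → ZMod p :=
  (hC.exists_shift (toHom τ) (toHom_x τ) (toHom_y τ)).choose

theorem Cov.sh_spec (hC : Cov p Ω x y w) (τ : Gp Ω x y) (i : Fin r) :
    toHom τ (w i) = w i + em p Ω K (hC.sh τ i) :=
  (hC.exists_shift (toHom τ) (toHom_x τ) (toHom_y τ)).choose_spec i

theorem Cov.hom_ext (hC : Cov p Ω x y w) {E : Type} [Field E] [Algebra Ω E] (g h : K →ₐ[Ω] E)
    (hx : g x = h x) (hy : g y = h y) (hw : ∀ i, g (w i) = h (w i)) : g = h := by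
  refine Pool.Agent.Helper75.QC.hom_ext ({x, y} ∪ Set.range w) hC.top _ _ ?_
  rintro c ((rfl | hc) | ⟨i, rfl⟩)
  · exact hx
  · rw [Set.mem_singleton_iff] at hc
    rw [hc]
    exact hy
  · exact hw i

theorem Cov.comm (hC : Cov p Ω x y w) (σ τ : Gp Ω x y) : σ * τ = τ * σ := by
  apply toHom_injective
  rw [toHom_mul, toHom_mul]
  refine hC.hom_ext _ _ ?_ ?_ fun i => ?_
  · rw [AlgHom.comp_apply, AlgHom.comp_apply, toHom_x, toHom_x, toHom_x]
  · rw [AlgHom.comp_apply, AlgHom.comp_apply, toHom_y, toHom_y, toHom_y]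
  · rw [AlgHom.comp_apply, AlgHom.comp_apply, hC.sh_spec, hC.sh_spec, map_add, map_add, map_em,
      map_em, hC.sh_spec, hC.sh_spec]
    ring

theorem Cov.sh_unique (hC : Cov p Ω x y w) (τ : Gp Ω x y) (i : Fin r) {c : ZMod p}
    (h : toHom τ (w i) = w i + em p Ω K c) : hC.sh τ i = c := by
  apply em_injective p Ω K
  have h1 := (hC.sh_spec τ i).symm.trans h
  exact add_left_cancel h1

theorem Cov.sh_mul (hC : Cov p Ω x y w) (σ τ : Gp Ω x y) :
    hC.sh (σ * τ) = hC.sh σ + hC.sh τ := by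
  funext i
  apply hC.sh_unique
  rw [toHom_mul, AlgHom.comp_apply, hC.sh_spec τ, map_add, map_em, hC.sh_spec σ, Pi.add_apply,
    map_add]
  ring

/-- the embedding of the Galois group -/
noncomputable def Cov.iota (hC : Cov p Ω x y w) :
    Gp Ω x y →* Multiplicative (Fin r → ZMod p) where
  toFun := fun τ => Multiplicative.ofAdd (hC.sh τ)
  map_one' := by
    have h : hC.sh 1 = 0 := by
      funext i
      apply hC.sh_unique
      rw [toHom_one, Pi.zero_apply, map_zero, add_zero]
      rfl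
    rw [h]
    rfl
  map_mul' := fun σ τ => by
    rw [hC.sh_mul]
    rfl

theorem Cov.iota_injective (hC : Cov p Ω x y w) : Function.Injective hC.iota := by
  intro σ τ h
  have e1 : hC.sh σ = hC.sh τ := h
  apply toHom_injective
  refine hC.hom_ext _ _ ?_ ?_ fun i => ?_
  · rw [toHom_x, toHom_x]
  · rw [toHom_y, toHom_y]
  · rw [hC.sh_spec, hC.sh_spec, e1]

theorem Cov.galois (hC : Cov p Ω x y w) :
    FiniteDimensional (adjoin Ω {x, y}) K ∧ IsGalois (adjoin Ω {x, y}) K := by
  refine galois_of w _ hC.hw ?_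
  intro M hM hw
  rw [eq_top_iff, ← hC.top, adjoin_le_iff]
  rintro c ((rfl | hc) | ⟨i, rfl⟩)
  · exact hM (subset_adjoin Ω _ (by simp))
  · exact hM (subset_adjoin Ω _ (Or.inr hc))
  · exact hw i

/-- an endomorphism over `x, y` belongs to the Galois group -/
theorem Cov.exists_toHom (hC : Cov p Ω x y w) (τ : K →ₐ[Ω] K)
    (hx : τ x = x) (hy : τ y = y) : ∃ σ : Gp Ω x y, toHom σ = τ := by
  have := hC.galois.1
  have h1 : ∀ c ∈ adjoin Ω {x, y}, τ c = c := fun c hc => fix_of_mem τ hx hy hc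
  let τ' : K →ₐ[adjoin Ω {x, y}] K := { τ.toRingHom with commutes' := fun c => h1 c c.2 }
  refine ⟨AlgEquiv.ofBijective τ' τ'.bijective, ?_⟩
  ext k
  rfl

/-- the linear combinations -/
noncomputable def comb (p : ℕ) [Fact p.Prime] (Ω : Type) [Field Ω] [Algebra (ZMod p) Ω] {K : Type}
    [Field K] [Algebra Ω K] {r : ℕ} (k : Fin r → ZMod p) (v : Fin r → K) : K :=
  ∑ i, em p Ω K (k i) * v i

theorem map_comb {K' : Type} [Field K'] [Algebra Ω K'] (g : K →ₐ[Ω] K') (k : Fin r → ZMod p)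
    (v : Fin r → K) : g (comb p Ω k v) = comb p Ω k fun i => g (v i) := by
  unfold comb
  rw [map_sum]
  refine Finset.sum_congr rfl fun i _ => ?_
  rw [map_mul, map_em]

theorem comb_shift (k : Fin r → ZMod p) (v : Fin r → K) (c : Fin r → ZMod p) :
    (comb p Ω k fun i => v i + em p Ω K (c i)) = comb p Ω k v + em p Ω K (∑ i, k i * c i) := by
  unfold comb
  rw [map_sum, ← Finset.sum_add_distrib]
  refine Finset.sum_congr rfl fun i _ => ?_
  rw [map_mul]
  ring

theorem comb_pow (k : Fin r → ZMod p) (v : Fin r → K) (e : ℕ) :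
    comb p Ω k v ^ p ^ e = comb p Ω k fun i => v i ^ p ^ e := by
  have := charP_of p Ω K
  unfold comb
  rw [sum_pow_char_pow]
  refine Finset.sum_congr rfl fun i _ => ?_
  rw [mul_pow, em_pow']

theorem comb_sub (k : Fin r → ZMod p) (v : Fin r → K) :
    comb p Ω k v ^ p - comb p Ω k v = comb p Ω k fun i => v i ^ p - v i := by
  have h := comb_pow (Ω := Ω) k v 1
  rw [pow_one] at h
  rw [h]
  unfold comb
  rw [← Finset.sum_sub_distrib]
  refine Finset.sum_congr rfl fun i _ => ?_
  ring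

theorem comb_mem (k : Fin r → ZMod p) (v : Fin r → K) (M : IntermediateField Ω K)
    (h : ∀ i, v i ∈ M) : comb p Ω k v ∈ M :=
  sum_mem fun i _ => mul_mem (M.algebraMap_mem _) (h i)

end

/-! ### characters -/

section

variable {p : ℕ} [hp : Fact p.Prime] {L : Type} [Field L] [CharZero L] [IsAlgClosed L]

omit [CharZero L] [IsAlgClosed L] in
theorem addChar_sum (ψ : AddChar (ZMod p) L) {ι : Type} (s : Finset ι) (f : ι → ZMod p) :
    ψ (∑ i ∈ s, f i) = ∏ i ∈ s, ψ (f i) := by
  classical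
  induction s using Finset.induction_on with
  | empty => rw [Finset.sum_empty, Finset.prod_empty, AddChar.map_zero_eq_one]
  | insert a s ha ih =>
    rw [Finset.sum_insert ha, Finset.prod_insert ha, AddChar.map_add_eq_mul, ih]

/-- the characters of an elementary abelian group -/
theorem exists_addChar : ∃ ψ : AddChar (ZMod p) L, (ψ 1) ^ p = 1 ∧ ψ 1 ≠ 1 ∧
    ∀ {r : ℕ} (χ : Multiplicative (Fin r → ZMod p) →* Lˣ), ∃ k : Fin r → ZMod p,
      ∀ c : Fin r → ZMod p, ((χ (Multiplicative.ofAdd c) : Lˣ) : L) = ψ (∑ i, k i * c i) := by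
  have : NeZero ((p : ℕ) : L) := ⟨by exact_mod_cast hp.out.ne_zero⟩
  obtain ⟨ξ, hξ⟩ := HasEnoughRootsOfUnity.exists_primitiveRoot L p
  have hξ1 : ξ ^ p = 1 := hξ.pow_eq_one
  have hval1 : (1 : ZMod p).val = 1 := by
    have := Fact.mk hp.out.one_lt
    exact ZMod.val_one p
  refine ⟨AddChar.zmodChar p hξ1, ?_, ?_, ?_⟩
  · rw [AddChar.zmodChar_apply, hval1, pow_one, hξ1]
  · rw [AddChar.zmodChar_apply, hval1, pow_one]
    exact hξ.ne_one hp.out.one_lt
  · intro r χ
    have h1 : ∀ i : Fin r, ∃ k : ZMod p,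
        ((χ (Multiplicative.ofAdd (Pi.single i 1)) : Lˣ) : L) = AddChar.zmodChar p hξ1 k := by
      intro i
      have h2 : ((χ (Multiplicative.ofAdd (Pi.single i 1)) : Lˣ) : L) ^ p = 1 := by
        rw [← Units.val_pow_eq_pow_val, ← map_pow]
        have h3 : (Multiplicative.ofAdd (Pi.single i 1 : Fin r → ZMod p)) ^ p = 1 := by
          rw [← ofAdd_nsmul]
          have : p • (Pi.single i 1 : Fin r → ZMod p) = 0 := by
            funext j
            rw [Pi.smul_apply, nsmul_eq_mul, ZMod.natCast_self, zero_mul]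
            rfl
          rw [this]
          rfl
        rw [h3, map_one, Units.val_one]
      obtain ⟨j, hj, hj'⟩ := hξ.eq_pow_of_pow_eq_one h2
      refine ⟨(j : ZMod p), ?_⟩
      rw [AddChar.zmodChar_apply, ZMod.val_cast_of_lt hj, hj']
    choose k hk using h1
    refine ⟨k, fun c => ?_⟩
    have h4 : c = ∑ i, (c i).val • (Pi.single i 1 : Fin r → ZMod p) := by
      funext j
      rw [Finset.sum_apply, Finset.sum_eq_single j]
      · rw [Pi.smul_apply, Pi.single_eq_same, nsmul_eq_mul, mul_one, ZMod.natCast_val,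
          ZMod.cast_id]
      · intro i _ hij
        rw [Pi.smul_apply, Pi.single_eq_of_ne (Ne.symm hij), smul_zero]
      · intro h
        exact absurd (Finset.mem_univ j) h
    have h5 : Multiplicative.ofAdd c =
        ∏ i, Multiplicative.ofAdd (Pi.single i 1 : Fin r → ZMod p) ^ (c i).val := by
      conv_lhs => rw [h4]
      rw [ofAdd_sum]
      rfl
    rw [h5, map_prod, Units.coe_prod, addChar_sum]
    refine Finset.prod_congr rfl fun i _ => ?_
    rw [map_pow, Units.val_pow_eq_pow_val, hk i, ← AddChar.map_nsmul_eq_pow]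
    congr 1
    rw [nsmul_eq_mul, ZMod.natCast_val, ZMod.cast_id]
    ring

end

end Pool.Agent.Helper73.QX
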