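import Mathlib

/-!
# The equation `w ^ p - w = c`
-/

open Polynomial

namespace Pool.Agent.Helper73.QX

section

variable (p : ℕ) [hp : Fact p.Prime] (Ω : Type) [Field Ω] [Algebra (ZMod p) Ω]

/-- the elements of the prime field -/
def em (E : Type) [Field E] [Algebra Ω E] : ZMod p →+* E :=
  (algebraMap Ω E).comp (algebraMap (ZMod p) Ω)

theorem charP_of (E : Type) [Field E] [Algebra Ω E] : CharP E p :=
  charP_of_injective_ringHom (em p Ω E).injective p

theorem em_pow (E : Type) [Field E] [Algebra Ω E] (c : ZMod p) : em p Ω E c ^ p = em p Ω E c := by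
  rw [← map_pow, ZMod.pow_card]

theorem em_pow' (E : Type) [Field E] [Algebra Ω E] (c : ZMod p) (e : ℕ) :
    em p Ω E c ^ p ^ e = em p Ω E c := by
  induction e with
  | zero => rw [pow_zero, pow_one]
  | succ e ih => rw [pow_succ, pow_mul, ih, em_pow]

theorem map_em {E E' : Type} [Field E] [Algebra Ω E] [Field E'] [Algebra Ω E'] (g : E →ₐ[Ω] E')
    (c : ZMod p) : g (em p Ω E c) = em p Ω E' c := g.commutes _

theorem em_injective (E : Type) [Field E] [Algebra Ω E] : Function.Injective (em p Ω E) :=
  (em p Ω E).injective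

theorem prod_X_sub_C : (∏ c : ZMod p, (X - C c) : (ZMod p)[X]) = X ^ p - X := by
  have h1 : (X ^ p - X : (ZMod p)[X]).roots = Finset.univ.val := by
    have := FiniteField.roots_X_pow_card_sub_X (ZMod p)
    rwa [ZMod.card] at this
  have h2 : (X ^ p - X : (ZMod p)[X]).Monic :=
    monic_X_pow_sub (by
      rw [degree_X]
      exact_mod_cast hp.out.one_lt)
  have h3 := (GaloisField.splits_zmod_X_pow_sub_X p).eq_prod_roots_of_monic h2
  rw [h1] at h3
  rw [h3]
  rfl

theorem prod_em (E : Type) [Field E] [Algebra Ω E] :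
    (∏ c : ZMod p, (X - C (em p Ω E c)) : E[X]) = X ^ p - X := by
  have h := congrArg (Polynomial.map (em p Ω E)) (prod_X_sub_C p)
  rw [Polynomial.map_prod, Polynomial.map_sub, Polynomial.map_pow, map_X] at h
  rw [← h]
  refine Finset.prod_congr rfl fun c _ => ?_
  rw [Polynomial.map_sub, map_X, map_C]

theorem exists_em {E : Type} [Field E] [Algebra Ω E] {z : E} (hz : z ^ p = z) :
    ∃ c : ZMod p, z = em p Ω E c := by
  have h := congrArg (Polynomial.eval z) (prod_em p Ω E)
  rw [eval_prod, eval_sub, eval_pow, eval_X, hz, sub_self, Finset.prod_eq_zero_iff] at h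
  obtain ⟨c, -, hc⟩ := h
  rw [eval_sub, eval_X, eval_C] at hc
  exact ⟨c, sub_eq_zero.1 hc⟩

theorem exists_em_of_eq {E : Type} [Field E] [Algebra Ω E] {z w : E}
    (h : z ^ p - z = w ^ p - w) : ∃ c : ZMod p, z = w + em p Ω E c := by
  have := charP_of p Ω E
  obtain ⟨c, hc⟩ := exists_em p Ω (z := z - w) (by
    rw [sub_pow_char]
    linear_combination h)
  exact ⟨c, by rw [← hc]; ring⟩

theorem sub_add_em {E : Type} [Field E] [Algebra Ω E] (w : E) (c : ZMod p) :
    (w + em p Ω E c) ^ p - (w + em p Ω E c) = w ^ p - w := by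
  have := charP_of p Ω E
  rw [add_pow_char, em_pow]
  ring

/-- the polynomial of `w` over a field which contains `w ^ p - w` -/
theorem as_poly {F N : Type} [Field F] [Field N] [Algebra F N] [Algebra Ω N] (w : N) (c : F)
    (hc : algebraMap F N c = w ^ p - w) :
    ∃ P : F[X], P.Separable ∧ aeval w P = 0 ∧ (P.map (algebraMap F N)).Splits := by
  have i1 := charP_of p Ω N
  have i2 : CharP F p := by
    have h1 := ringChar.charP F
    have h2 : CharP N (ringChar F) := charP_of_injective_algebraMap (algebraMap F N).injective _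
    rw [CharP.eq N i1 h2]
    exact h1
  refine ⟨X ^ p - X - C c, ?_, ?_, ?_⟩
  · rw [separable_def]
    have h1 : derivative (X ^ p - X - C c : F[X]) = -1 := by
      rw [derivative_sub, derivative_sub, derivative_X_pow, derivative_X, derivative_C,
        CharP.cast_eq_zero, C_0, zero_mul, zero_sub, sub_zero]
    rw [h1]
    exact isCoprime_one_right.neg_right
  · rw [map_sub, map_sub, map_pow, aeval_X, aeval_C, hc, sub_self]
  · have h1 : (X ^ p - X - C c : F[X]).map (algebraMap F N) =
        ∏ e : ZMod p, (X - C (w + em p Ω N e)) := by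
      rw [Polynomial.map_sub, Polynomial.map_sub, Polynomial.map_pow, map_X, map_C, hc]
      have h2 := congrArg (fun P => P.comp (X - C w)) (prod_em p Ω N)
      simp only [Polynomial.prod_comp, sub_comp, X_comp, C_comp, pow_comp] at h2
      have h3 : CharP N[X] p := inferInstance
      rw [sub_pow_char] at h2
      have h4 : ∏ e : ZMod p, (X - C w - C (em p Ω N e)) = ∏ e : ZMod p,
          (X - C (w + em p Ω N e)) := by
        refine Finset.prod_congr rfl fun e _ => ?_
        rw [C_add]
        ring
      rw [← h4, h2, ← C_pow, C_sub]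
      ring
    rw [h1]
    exact Splits.prod fun e _ => Splits.X_sub_C _

end

end Pool.Agent.Helper73.QX
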